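import Mathlib

set_option autoImplicit false

/-!
# The numerical inequality behind the sharp constant

`t j` stands for `‖T ^ j‖`; the hypothesis `H` is `k (k+1) ⋯ (k+j-1) t j ≤ j! M ^ k` for all `k ≥ 1`.
The conclusion is `∑_{1 ≤ j < n} t j ≤ e M (M - 1)`.
-/

namespace Pool.Agent.U451.PS

open Finset

/-- The tail function: `M ^ (L+1) * τ L J` bounds the sum over `j ≥ J`. -/
noncomputable def tau (L j : ℕ) : ℝ :=
  (j.factorial : ℝ) * L / ((L - 1) * (L.ascFactorial j : ℝ))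

lemma tau_nonneg (L j : ℕ) (hL : 2 ≤ L) : 0 ≤ tau L j := by
  unfold tau
  have h1 : (2 : ℝ) ≤ L := by exact_mod_cast hL
  have : (0 : ℝ) ≤ (L : ℝ) - 1 := by linarith
  positivity

lemma tau_sub (L j : ℕ) (hL : 2 ≤ L) :
    tau L j - tau L (j + 1) = (j.factorial : ℝ) / ((L + 1).ascFactorial j : ℝ) := by
  have h1 : (2 : ℝ) ≤ L := by exact_mod_cast hL
  have h2 : ((L : ℝ) - 1) ≠ 0 := by linarith
  have h3 : (L.ascFactorial j : ℝ) ≠ 0 := by
    have : 0 < L.ascFactorial j := by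
      obtain ⟨l, rfl⟩ : ∃ l, L = l + 1 := ⟨L - 1, by omega⟩
      exact Nat.ascFactorial_pos l j
    positivity
  have h4 : (((L + 1).ascFactorial j : ℕ) : ℝ) = (L + j) * (L.ascFactorial j : ℝ) / L := by
    have := Nat.succ_ascFactorial L j
    have h5 : ((L : ℝ)) * ((L + 1).ascFactorial j : ℝ) = (L + j) * (L.ascFactorial j : ℝ) := by
      exact_mod_cast this
    have hL0 : (L : ℝ) ≠ 0 := by linarith
    field_simp
    linarith
  rw [h4]
  unfold tau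
  rw [Nat.ascFactorial_succ, Nat.factorial_succ]
  have hj : (0 : ℝ) ≤ j := Nat.cast_nonneg j
  have h6 : ((L : ℝ) + j) ≠ 0 := by linarith
  have hL0 : (L : ℝ) ≠ 0 := by linarith
  push_cast
  field_simp
  ring

section
variable {t : ℕ → ℝ} {M : ℝ}

/-- The hypothesis on the sequence `t`. -/
def Hyp (t : ℕ → ℝ) (M : ℝ) : Prop :=
  (∀ j, 0 ≤ t j) ∧ ∀ j k : ℕ, 1 ≤ k → (k.ascFactorial j : ℝ) * t j ≤ (j.factorial : ℝ) * M ^ k

lemma asc_pos (k j : ℕ) (hk : 1 ≤ k) : (0 : ℝ) < (k.ascFactorial j : ℝ) := by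
  have : 0 < k.ascFactorial j := by
    obtain ⟨l, rfl⟩ : ∃ l, k = l + 1 := ⟨k - 1, by omega⟩
    exact Nat.ascFactorial_pos l j
  exact_mod_cast this

lemma Hyp.le (H : Hyp t M) (j k : ℕ) (hk : 1 ≤ k) :
    t j ≤ (j.factorial : ℝ) * M ^ k / (k.ascFactorial j : ℝ) := by
  rw [le_div_iff₀ (asc_pos k j hk), mul_comm]
  exact H.2 j k hk

lemma Hyp.tail (H : Hyp t M) (L : ℕ) (hL : 2 ≤ L) (J n : ℕ) (hn : J ≤ n) :
    ∑ j ∈ Ico J n, t j ≤ M ^ (L + 1) * (tau L J - tau L n) := by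
  induction n, hn using Nat.le_induction with
  | base => simp
  | succ n hn ih =>
    rw [Finset.sum_Ico_succ_top hn]
    have h1 := H.le n (L + 1) (by omega)
    have h2 := tau_sub L n hL
    have h3 : M ^ (L + 1) * (tau L J - tau L (n + 1)) =
        M ^ (L + 1) * (tau L J - tau L n) +
          M ^ (L + 1) * ((n.factorial : ℝ) / ((L + 1).ascFactorial n : ℝ)) := by
      rw [← h2]; ring
    rw [h3]
    have h4 : (n.factorial : ℝ) * M ^ (L + 1) / ((L + 1).ascFactorial n : ℝ) =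
      M ^ (L + 1) * ((n.factorial : ℝ) / ((L + 1).ascFactorial n : ℝ)) := by ring
    rw [h4] at h1
    linarith

lemma Hyp.split (H : Hyp t M) (hM : 1 ≤ M) (J L : ℕ) (hJ : 1 ≤ J) (hL : 2 ≤ L) (n : ℕ) :
    ∑ j ∈ Ico 1 n, t j ≤ ∑ j ∈ Ico 1 J, t j + M ^ (L + 1) * tau L J := by
  have h1 : ∑ j ∈ Ico 1 n, t j ≤ ∑ j ∈ Ico 1 (max n J), t j :=
    Finset.sum_le_sum_of_subset_of_nonneg
      (Finset.Ico_subset_Ico_right (le_max_left _ _)) (fun j _ _ => H.1 j)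
  have h2 : ∑ j ∈ Ico 1 (max n J), t j = ∑ j ∈ Ico 1 J, t j + ∑ j ∈ Ico J (max n J), t j :=
    (Finset.sum_Ico_consecutive _ hJ (le_max_right _ _)).symm
  have h3 := H.tail L hL J (max n J) (le_max_right _ _)
  have h4 := tau_nonneg L (max n J) hL
  have h5 : 0 ≤ M ^ (L + 1) * tau L (max n J) := by positivity
  rw [mul_sub] at h3
  linarith

/-- chord inequality for powers -/
lemma chord (a b x : ℝ) (ha : 0 ≤ a) (hax : a ≤ x) (hxb : x ≤ b) (n : ℕ) :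
    x ^ n * (b - a) ≤ a ^ n * (b - x) + b ^ n * (x - a) := by
  induction n with
  | zero => simp
  | succ n ih =>
    have hx : 0 ≤ x := ha.trans hax
    have h1 := mul_le_mul_of_nonneg_left ih hx
    have h2 : a ^ n ≤ b ^ n := pow_le_pow_left₀ ha (hax.trans hxb) n
    have h3 : 0 ≤ (b - x) * (x - a) * (b ^ n - a ^ n) :=
      mul_nonneg (mul_nonneg (by linarith) (by linarith)) (by linarith)
    have h4 : x * (a ^ n * (b - x) + b ^ n * (x - a)) + (b - x) * (x - a) * (b ^ n - a ^ n) =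
      a ^ (n + 1) * (b - x) + b ^ (n + 1) * (x - a) := by ring
    calc x ^ (n + 1) * (b - a) = x * (x ^ n * (b - a)) := by ring
      _ ≤ x * (a ^ n * (b - x) + b ^ n * (x - a)) := h1
      _ ≤ _ := by linarith

/-- `3/2 ≤ M ≤ 15/8` -/
lemma Hyp.B1 (H : Hyp t M) (h1 : (3/2) ≤ M) (h2 : M ≤ (15/8)) (n : ℕ) :
    ∑ j ∈ Ico 1 n, t j ≤ Real.exp 1 * (M * (M - 1)) := by
  have h := H.split (by linarith) 5 8 (by norm_num) (by norm_num) n
  have e1 := H.le 1 2 (by norm_num)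
  have e2 := H.le 2 4 (by norm_num)
  have e3 := H.le 3 5 (by norm_num)
  have e4 := H.le 4 7 (by norm_num)
  have hs : ∑ j ∈ Ico 1 5, t j = t 1 + t 2 + t 3 + t 4 := by
    simp [Finset.sum_Ico_eq_sum_range, Finset.sum_range_succ]
  rw [hs] at h
  norm_num [Nat.ascFactorial, Nat.factorial, tau] at e1 e2 e3 e4 h
  have he := Real.exp_one_gt_d9
  have c3 := chord (3/2) (15/8) M (by norm_num) h1 h2 3
  have c4 := chord (3/2) (15/8) M (by norm_num) h1 h2 4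
  have c6 := chord (3/2) (15/8) M (by norm_num) h1 h2 6
  have c8 := chord (3/2) (15/8) M (by norm_num) h1 h2 8
  have key : (1/2) * M ^ 1 + (1/10) * M ^ 3 + (1/35) * M ^ 4 + (1/210) * M ^ 6 + (1/693) * M ^ 8 ≤ 2718 / 1000 * (M - 1) := by
    norm_num at c3 c4 c6 c8 ⊢
    linarith
  have hM : 0 < M := by linarith
  have h5 : M * ((1/2) * M ^ 1 + (1/10) * M ^ 3 + (1/35) * M ^ 4 + (1/210) * M ^ 6 + (1/693) * M ^ 8) ≤ M * (2718 / 1000 * (M - 1)) := mul_le_mul_of_nonneg_left key hM.le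
  have h6 : 2718 / 1000 * (M * (M - 1)) ≤ Real.exp 1 * (M * (M - 1)) :=
    mul_le_mul_of_nonneg_right (by linarith) (mul_nonneg hM.le (by linarith))
  ring_nf at *
  linarith

/-- `15/8 ≤ M ≤ 27/10` -/
lemma Hyp.B2 (H : Hyp t M) (h1 : (15/8) ≤ M) (h2 : M ≤ (27/10)) (n : ℕ) :
    ∑ j ∈ Ico 1 n, t j ≤ Real.exp 1 * (M * (M - 1)) := by
  have h := H.split (by linarith) 6 6 (by norm_num) (by norm_num) n
  have e1 := H.le 1 1 (by norm_num)
  have e2 := H.le 2 2 (by norm_num)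
  have e3 := H.le 3 3 (by norm_num)
  have e4 := H.le 4 4 (by norm_num)
  have e5 := H.le 5 5 (by norm_num)
  have hs : ∑ j ∈ Ico 1 6, t j = t 1 + t 2 + t 3 + t 4 + t 5 := by
    simp [Finset.sum_Ico_eq_sum_range, Finset.sum_range_succ]
  rw [hs] at h
  norm_num [Nat.ascFactorial, Nat.factorial, tau] at e1 e2 e3 e4 e5 h
  have he := Real.exp_one_gt_d9
  have c2 := chord (15/8) (27/10) M (by norm_num) h1 h2 2
  have c3 := chord (15/8) (27/10) M (by norm_num) h1 h2 3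
  have c4 := chord (15/8) (27/10) M (by norm_num) h1 h2 4
  have c6 := chord (15/8) (27/10) M (by norm_num) h1 h2 6
  have key : 1 * M ^ 0 + (1/3) * M ^ 1 + (1/10) * M ^ 2 + (1/35) * M ^ 3 + (1/126) * M ^ 4 + (1/385) * M ^ 6 ≤ 2718 / 1000 * (M - 1) := by
    norm_num at c2 c3 c4 c6 ⊢
    linarith
  have hM : 0 < M := by linarith
  have h5 : M * (1 * M ^ 0 + (1/3) * M ^ 1 + (1/10) * M ^ 2 + (1/35) * M ^ 3 + (1/126) * M ^ 4 + (1/385) * M ^ 6) ≤ M * (2718 / 1000 * (M - 1)) := mul_le_mul_of_nonneg_left key hM.le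
  have h6 : 2718 / 1000 * (M * (M - 1)) ≤ Real.exp 1 * (M * (M - 1)) :=
    mul_le_mul_of_nonneg_right (by linarith) (mul_nonneg hM.le (by linarith))
  ring_nf at *
  linarith

/-- `27/10 ≤ M ≤ 4` -/
lemma Hyp.B3 (H : Hyp t M) (h1 : (27/10) ≤ M) (h2 : M ≤ 4) (n : ℕ) :
    ∑ j ∈ Ico 1 n, t j ≤ Real.exp 1 * (M * (M - 1)) := by
  have h := H.split (by linarith) 6 3 (by norm_num) (by norm_num) n
  have e1 := H.le 1 1 (by norm_num)
  have e2 := H.le 2 1 (by norm_num)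
  have e3 := H.le 3 2 (by norm_num)
  have e4 := H.le 4 2 (by norm_num)
  have e5 := H.le 5 3 (by norm_num)
  have hs : ∑ j ∈ Ico 1 6, t j = t 1 + t 2 + t 3 + t 4 + t 5 := by
    simp [Finset.sum_Ico_eq_sum_range, Finset.sum_range_succ]
  rw [hs] at h
  norm_num [Nat.ascFactorial, Nat.factorial, tau] at e1 e2 e3 e4 e5 h
  have he := Real.exp_one_gt_d9
  have c2 := chord (27/10) 4 M (by norm_num) h1 h2 2
  have c3 := chord (27/10) 4 M (by norm_num) h1 h2 3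
  have key : 2 * M ^ 0 + (9/20) * M ^ 1 + (1/21) * M ^ 2 + (3/56) * M ^ 3 ≤ 2718 / 1000 * (M - 1) := by
    norm_num at c2 c3 ⊢
    linarith
  have hM : 0 < M := by linarith
  have h5 : M * (2 * M ^ 0 + (9/20) * M ^ 1 + (1/21) * M ^ 2 + (3/56) * M ^ 3) ≤ M * (2718 / 1000 * (M - 1)) := mul_le_mul_of_nonneg_left key hM.le
  have h6 : 2718 / 1000 * (M * (M - 1)) ≤ Real.exp 1 * (M * (M - 1)) :=
    mul_le_mul_of_nonneg_right (by linarith) (mul_nonneg hM.le (by linarith))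
  ring_nf at *
  linarith

/-- `4 ≤ M ≤ 5` -/
lemma Hyp.B4 (H : Hyp t M) (h1 : 4 ≤ M) (h2 : M ≤ 5) (n : ℕ) :
    ∑ j ∈ Ico 1 n, t j ≤ Real.exp 1 * (M * (M - 1)) := by
  have h := H.split (by linarith) 7 3 (by norm_num) (by norm_num) n
  have e1 := H.le 1 1 (by norm_num)
  have e2 := H.le 2 1 (by norm_num)
  have e3 := H.le 3 1 (by norm_num)
  have e4 := H.le 4 1 (by norm_num)
  have e5 := H.le 5 2 (by norm_num)
  have e6 := H.le 6 2 (by norm_num)
  have hs : ∑ j ∈ Ico 1 7, t j = t 1 + t 2 + t 3 + t 4 + t 5 + t 6 := by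
    simp [Finset.sum_Ico_eq_sum_range, Finset.sum_range_succ]
  rw [hs] at h
  norm_num [Nat.ascFactorial, Nat.factorial, tau] at e1 e2 e3 e4 e5 e6 h
  have he := Real.exp_one_gt_d9
  have c3 := chord 4 5 M (by norm_num) h1 h2 3
  have key : 4 * M ^ 0 + (13/42) * M ^ 1 + (1/24) * M ^ 3 ≤ 2718 / 1000 * (M - 1) := by
    norm_num at c3 ⊢
    linarith
  have hM : 0 < M := by linarith
  have h5 : M * (4 * M ^ 0 + (13/42) * M ^ 1 + (1/24) * M ^ 3) ≤ M * (2718 / 1000 * (M - 1)) := mul_le_mul_of_nonneg_left key hM.le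
  have h6 : 2718 / 1000 * (M * (M - 1)) ≤ Real.exp 1 * (M * (M - 1)) :=
    mul_le_mul_of_nonneg_right (by linarith) (mul_nonneg hM.le (by linarith))
  ring_nf at *
  linarith


lemma two_asc (j : ℕ) : ((2 : ℕ).ascFactorial j : ℝ) = (j + 1) * (j.factorial : ℝ) := by
  have h := Nat.factorial_mul_ascFactorial 1 j
  rw [Nat.factorial_one, one_mul, add_comm 1 j, Nat.factorial_succ] at h
  have h' : (1 + 1 : ℕ) = 2 := rfl
  rw [h'] at h
  rw [h]; push_cast; ring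

lemma three_asc (j : ℕ) : ((3 : ℕ).ascFactorial j : ℝ) = (j + 2) * (j + 1) * (j.factorial : ℝ) / 2 := by
  have h := Nat.factorial_mul_ascFactorial 2 j
  rw [Nat.factorial_two, add_comm 2 j, Nat.factorial_succ, Nat.factorial_succ] at h
  have h' : (2 + 1 : ℕ) = 3 := rfl
  rw [h'] at h
  have h2 : (2 : ℝ) * ((3 : ℕ).ascFactorial j : ℝ) = (j + 2) * ((j + 1) * (j.factorial : ℝ)) := by
    have : ((2 * (3 : ℕ).ascFactorial j : ℕ) : ℝ) = (((j + 1 + 1) * ((j + 1) * j.factorial) : ℕ) : ℝ) := by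
      rw [h]
    push_cast at this
    linarith
  linarith

lemma tau_two (j : ℕ) : tau 2 j = 2 / ((j : ℝ) + 1) := by
  unfold tau
  rw [two_asc]
  have h1 : (j.factorial : ℝ) ≠ 0 := by positivity
  have h2 : ((j : ℝ) + 1) ≠ 0 := by positivity
  push_cast
  field_simp
  ring

lemma tau_three (j : ℕ) : tau 3 j = 3 / (((j : ℝ) + 1) * (j + 2)) := by
  unfold tau
  rw [three_asc]
  have h1 : (j.factorial : ℝ) ≠ 0 := by positivity
  have h2 : ((j : ℝ) + 1) ≠ 0 := by positivity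
  have h3 : ((j : ℝ) + 2) ≠ 0 := by positivity
  push_cast
  field_simp
  ring

lemma sum_inv_le_log (s n : ℕ) (hs : 1 ≤ s) (hn : s ≤ n) :
    ∑ j ∈ Ico s n, 1 / ((j : ℝ) + 1) ≤ Real.log n - Real.log s := by
  induction n, hn using Nat.le_induction with
  | base => simp
  | succ n hn ih =>
    rw [Finset.sum_Ico_succ_top hn]
    have hn0 : (0 : ℝ) < n := by exact_mod_cast lt_of_lt_of_le hs hn
    have h1 := Real.one_sub_inv_le_log_of_pos (x := ((n : ℝ) + 1) / n) (by positivity)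
    rw [Real.log_div (by positivity) (by positivity)] at h1
    have h2 : 1 - (((n : ℝ) + 1) / n)⁻¹ = 1 / ((n : ℝ) + 1) := by
      field_simp
      ring
    rw [h2] at h1
    push_cast
    linarith

/-- the final inequality for large `M` -/
lemma ineqC (s M : ℝ) (hs : 5 ≤ s) (h1 : s ≤ M) (h2 : M ≤ s + 1) :
    (s - 1) + 6932 / 10000 * M + 2 * M ^ 2 * s / ((2 * s + 1) * (3 * s + 1)) +
      3 * M ^ 3 / ((3 * s + 1) * (3 * s + 2)) ≤ 2718 / 1000 * (M - 1) := by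
  obtain ⟨v, rfl⟩ : ∃ v, s = 5 + v := ⟨s - 5, by ring⟩
  obtain ⟨y, rfl⟩ : ∃ y, M = 5 + v + y := ⟨M - (5 + v), by ring⟩
  have hv : 0 ≤ v := by linarith
  have hy : 0 ≤ y := by linarith
  have hy1 : 0 ≤ 1 - y := by linarith
  have hA : 0 < 2 * (5 + v) + 1 := by linarith
  have hB : 0 < 3 * (5 + v) + 1 := by linarith
  have hC : 0 < 3 * (5 + v) + 2 := by linarith
  have key : 2718 / 1000 * (5 + v + y - 1) - ((5 + v - 1) + 6932 / 10000 * (5 + v + y) +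
      2 * (5 + v + y) ^ 2 * (5 + v) / ((2 * (5 + v) + 1) * (3 * (5 + v) + 1)) +
      3 * (5 + v + y) ^ 3 / ((3 * (5 + v) + 1) * (3 * (5 + v) + 2))) =
      ((226969/125) * (v^0 * (y^0 * (1-y)^3)) + (4581536/625) * (v^0 * (y^1 * (1-y)^2)) + (5342912/625) * (v^0 * (y^2 * (1-y)^1)) + (1875596/625) * (v^0 * (y^3 * (1-y)^0)) + (5257999/2500) * (v^1 * (y^0 * (1-y)^3)) + (17990243/2500) * (v^1 * (y^1 * (1-y)^2)) + (19573989/2500) * (v^1 * (y^2 * (1-y)^1)) + (1365349/500) * (v^1 * (y^3 * (1-y)^0)) + (1950201/2500) * (v^2 * (y^0 * (1-y)^3)) + (6186517/2500) * (v^2 * (y^1 * (1-y)^2)) + (6462431/2500) * (v^2 * (y^2 * (1-y)^1)) + (445223/500) * (v^2 * (y^3 * (1-y)^0)) + (74171/625) * (v^3 * (y^0 * (1-y)^3)) + (226542/625) * (v^3 * (y^1 * (1-y)^2)) + (230571/625) * (v^3 * (y^2 * (1-y)^1)) + (3128/25) * (v^3 * (y^3 * (1-y)^0)) + (4029/625) * (v^4 * (y^0 * (1-y)^3)) + (12087/625) * (v^4 * (y^1 * (1-y)^2)) + (12087/625)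 * (v^4 * (y^2 * (1-y)^1)) + (4029/625) * (v^4 * (y^3 * (1-y)^0))) /
        ((2 * (5 + v) + 1) * (3 * (5 + v) + 1) * (3 * (5 + v) + 2)) := by
    field_simp
    ring
  have h3 : 0 ≤ ((226969/125) * (v^0 * (y^0 * (1-y)^3)) + (4581536/625) * (v^0 * (y^1 * (1-y)^2)) + (5342912/625) * (v^0 * (y^2 * (1-y)^1)) + (1875596/625) * (v^0 * (y^3 * (1-y)^0)) + (5257999/2500) * (v^1 * (y^0 * (1-y)^3)) + (17990243/2500) * (v^1 * (y^1 * (1-y)^2)) + (19573989/2500) * (v^1 * (y^2 * (1-y)^1)) + (1365349/500) * (v^1 * (y^3 * (1-y)^0)) + (1950201/2500) * (v^2 * (y^0 * (1-y)^3)) + (6186517/2500) * (v^2 * (y^1 * (1-y)^2)) + (6462431/2500) * (v^2 * (y^2 * (1-y)^1)) + (445223/500) * (v^2 * (y^3 * (1-y)^0)) + (74171/625) * (v^3 * (y^0 * (1-y)^3)) + (226542/625) * (v^3 * (y^1 * (1-y)^2)) + (230571/625) * (v^3 * (y^2 * (1-y)^1)) + (3128/25) * (v^3 * (y^3 * (1-y)^0)) + (4029/625) * (v^4 * (y^0 * (1-y)^3)) + (12087/625) * (v^4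 * (y^1 * (1-y)^2)) + (12087/625) * (v^4 * (y^2 * (1-y)^1)) + (4029/625) * (v^4 * (y^3 * (1-y)^0))) /
        ((2 * (5 + v) + 1) * (3 * (5 + v) + 1) * (3 * (5 + v) + 2)) := by positivity
  rw [← key] at h3
  linarith

/-- `5 ≤ M` -/
lemma Hyp.C (H : Hyp t M) (h1 : 5 ≤ M) (n : ℕ) :
    ∑ j ∈ Ico 1 n, t j ≤ Real.exp 1 * (M * (M - 1)) := by
  set s := ⌊M⌋₊ with hs
  have hM : 0 ≤ M := by linarith
  have hs1 : (s : ℝ) ≤ M := Nat.floor_le hM
  have hs2 : M ≤ s + 1 := (Nat.lt_floor_add_one M).le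
  have hs5 : 5 ≤ s := by
    rw [hs]; exact Nat.le_floor (by exact_mod_cast h1)
  have hs5' : (5 : ℝ) ≤ s := by exact_mod_cast hs5
  have h := H.split (by linarith) (3 * s) 3 (by omega) (by norm_num) n
  have hsum : ∑ j ∈ Ico 1 (3 * s), t j =
      ∑ j ∈ Ico 1 s, t j + ∑ j ∈ Ico s (2 * s), t j + ∑ j ∈ Ico (2 * s) (3 * s), t j := by
    rw [Finset.sum_Ico_consecutive _ (by omega) (by omega),
      Finset.sum_Ico_consecutive _ (by omega) (by omega)]
  have b1 : ∑ j ∈ Ico 1 s, t j ≤ ((s : ℝ) - 1) * M := by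
    have : ∑ j ∈ Ico 1 s, t j ≤ ∑ j ∈ Ico 1 s, M := by
      refine Finset.sum_le_sum fun j _ => ?_
      have h2 := H.le j 1 le_rfl
      rw [Nat.one_ascFactorial, pow_one] at h2
      have h3 : (j.factorial : ℝ) ≠ 0 := by positivity
      rwa [mul_div_assoc, mul_div_cancel₀ _ h3] at h2
    refine this.trans ?_
    rw [Finset.sum_const, Nat.card_Ico, nsmul_eq_mul, Nat.cast_sub (by omega)]
    simp
  have b2 : ∑ j ∈ Ico s (2 * s), t j ≤ M ^ 2 * (6932 / 10000) := by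
    have h2 : ∑ j ∈ Ico s (2 * s), t j ≤ ∑ j ∈ Ico s (2 * s), M ^ 2 * (1 / ((j : ℝ) + 1)) := by
      refine Finset.sum_le_sum fun j _ => ?_
      have h2 := H.le j 2 (by norm_num)
      rw [two_asc] at h2
      have h3 : (j.factorial : ℝ) ≠ 0 := by positivity
      have h4 : ((j : ℝ) + 1) ≠ 0 := by positivity
      have h5 : (j.factorial : ℝ) * M ^ 2 / (((j : ℝ) + 1) * (j.factorial : ℝ)) =
        M ^ 2 * (1 / ((j : ℝ) + 1)) := by
        field_simp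
      rwa [h5] at h2
    rw [← Finset.mul_sum] at h2
    refine h2.trans (mul_le_mul_of_nonneg_left ?_ (by positivity))
    refine (sum_inv_le_log s (2 * s) (by omega) (by omega)).trans ?_
    have hs0 : (s : ℝ) ≠ 0 := by linarith
    push_cast
    rw [Real.log_mul (by norm_num) hs0]
    have := Real.log_two_lt_d9
    linarith
  have b3 := H.tail 2 le_rfl (2 * s) (3 * s) (by omega)
  rw [tau_two, tau_two] at b3
  rw [tau_three, hsum] at h
  have hC := ineqC s M hs5' hs1 hs2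
  have h7 : M * ((s - 1) + 6932 / 10000 * M + 2 * M ^ 2 * s / ((2 * s + 1) * (3 * s + 1)) +
      3 * M ^ 3 / ((3 * s + 1) * (3 * s + 2))) ≤ M * (2718 / 1000 * (M - 1)) :=
    mul_le_mul_of_nonneg_left hC hM
  have he := Real.exp_one_gt_d9
  have h8 : 2718 / 1000 * (M * (M - 1)) ≤ Real.exp 1 * (M * (M - 1)) :=
    mul_le_mul_of_nonneg_right (by linarith) (mul_nonneg hM (by linarith))
  push_cast at b3 h
  have e1 : M ^ (2 + 1) * (2 / (2 * (s : ℝ) + 1) - 2 / (3 * (s : ℝ) + 1)) =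
      M * (2 * M ^ 2 * s / ((2 * s + 1) * (3 * s + 1))) := by
    have : (2 * (s : ℝ) + 1) ≠ 0 := by positivity
    have : (3 * (s : ℝ) + 1) ≠ 0 := by positivity
    field_simp
    ring
  have e2 : M ^ (3 + 1) * (3 / ((3 * (s : ℝ) + 1) * (3 * s + 2))) =
      M * (3 * M ^ 3 / ((3 * s + 1) * (3 * s + 2))) := by
    ring
  rw [e1] at b3
  rw [e2] at h
  nlinarith [b1, b2, b3, h, h7, h8]

end

end Pool.Agent.U451.PS
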