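import Pool.Agent.U451.PSNum

set_option autoImplicit false

/-!
# The numerical inequality: `1 ≤ M ≤ 3/2`, and the conclusion for all `M ≥ 1`
-/

namespace Pool.Agent.U451.PS

open Finset

variable {t : ℕ → ℝ} {M : ℝ}

/-- Padé bound for the logarithm. -/
lemma log_le_pade (m : ℝ) (hm : 0 ≤ m) : Real.log (1 + m) ≤ m * (6 + m) / (6 + 4 * m) := by
  have hd : ∀ x : ℝ, 0 ≤ x → HasDerivAt (fun x => x * (6 + x) / (6 + 4 * x) - Real.log (1 + x))
      (4 * x ^ 3 / ((6 + 4 * x) ^ 2 * (1 + x))) x := by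
    intro x hx
    have h1 : HasDerivAt (fun x : ℝ => x * (6 + x)) (1 * (6 + x) + x * 1) x :=
      (hasDerivAt_id x).mul ((hasDerivAt_id x).const_add 6)
    have h2 : HasDerivAt (fun x : ℝ => 6 + 4 * x) (4 * 1) x :=
      ((hasDerivAt_id x).const_mul 4).const_add 6
    have h3 : (6 + 4 * x) ≠ 0 := by linarith
    have h4 := h1.div h2 h3
    have h5 : HasDerivAt (fun x : ℝ => Real.log (1 + x)) (1 / (1 + x)) x :=
      ((hasDerivAt_id x).const_add 1).log (by simp only [id]; linarith)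
    have h6 := h4.sub h5
    have h7 : (1 + x) ≠ 0 := by linarith
    refine h6.congr_deriv ?_
    field_simp
    ring
  have hmono : MonotoneOn (fun x => x * (6 + x) / (6 + 4 * x) - Real.log (1 + x)) (Set.Ici 0) := by
    apply monotoneOn_of_deriv_nonneg (convex_Ici 0)
    · intro x hx
      exact (hd x hx).continuousAt.continuousWithinAt
    · intro x hx
      rw [interior_Ici] at hx
      exact (hd x (le_of_lt hx)).differentiableAt.differentiableWithinAt
    · intro x hx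
      rw [interior_Ici] at hx
      have hx0 : 0 ≤ x := le_of_lt hx
      rw [(hd x hx0).deriv]
      positivity
  have := hmono (Set.self_mem_Ici) (show m ∈ Set.Ici (0 : ℝ) from hm) hm
  simp at this
  linarith

/-- `u = exp ((6 + m)/(6 + 4 m))` is an upper bound for `(1 + m) ^ (1 / m)` -/
noncomputable def uu (m : ℝ) : ℝ := Real.exp ((6 + m) / (6 + 4 * m))

lemma rpow_le_uu (m : ℝ) (hm : 0 < m) (j : ℕ) : (1 + m) ^ ((j : ℝ) / m) ≤ uu m ^ j := by
  rw [Real.rpow_def_of_pos (by linarith), uu, ← Real.exp_nat_mul]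
  apply Real.exp_le_exp.2
  have h1 := log_le_pade m hm.le
  have h2 : (0 : ℝ) ≤ (j : ℝ) / m := by positivity
  calc Real.log (1 + m) * ((j : ℝ) / m) ≤ (m * (6 + m) / (6 + 4 * m)) * ((j : ℝ) / m) :=
        mul_le_mul_of_nonneg_right h1 h2
    _ = (j : ℝ) * ((6 + m) / (6 + 4 * m)) := by
        have : (6 + 4 * m) ≠ 0 := by linarith
        field_simp

lemma uu_le (m : ℝ) (hm : 0 ≤ m) :
    uu m ≤ Real.exp 1 * (8 * (3 + 2 * m) ^ 2 / (72 + 132 * m + 65 * m ^ 2)) := by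
  have h1 : (6 + m) / (6 + 4 * m) = 1 - 3 * m / (6 + 4 * m) := by
    have : (6 + 4 * m) ≠ 0 := by linarith
    field_simp
    ring
  rw [uu, h1, Real.exp_sub]
  have h2 : 0 ≤ 3 * m / (6 + 4 * m) := by positivity
  have h3 := Real.quadratic_le_exp_of_nonneg h2
  have h4 : 1 + 3 * m / (6 + 4 * m) + (3 * m / (6 + 4 * m)) ^ 2 / 2 =
      (72 + 132 * m + 65 * m ^ 2) / (8 * (3 + 2 * m) ^ 2) := by
    have h5 : (6 + 4 * m) ≠ 0 := by linarith
    have h6 : (3 + 2 * m) ≠ 0 := by linarith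
    field_simp
    ring
  rw [h4] at h3
  rw [div_eq_mul_inv]
  refine mul_le_mul_of_nonneg_left ?_ (Real.exp_pos 1).le
  have h7 : 0 < (72 + 132 * m + 65 * m ^ 2) / (8 * (3 + 2 * m) ^ 2) := by positivity
  have h8 := inv_anti₀ h7 h3
  rwa [inv_div] at h8

/-- the final inequality for small `m = M - 1` -/
lemma ineqA (m : ℝ) (h0 : 0 ≤ m) (h1 : m ≤ 1 / 2) :
    (8 * (3 + 2 * m) ^ 2 / (72 + 132 * m + 65 * m ^ 2)) +
      271829 / 100000 * m * (8 * (3 + 2 * m) ^ 2 / (72 + 132 * m + 65 * m ^ 2)) ^ 2 / (2 + m) +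
      2 * (271829 / 100000) ^ 2 * (1 + m) ^ 2 * m ^ 2 *
        (8 * (3 + 2 * m) ^ 2 / (72 + 132 * m + 65 * m ^ 2)) ^ 3 / ((3 + m) * (3 + 4 * m)) ≤
      1 + m := by
  have hm : 0 ≤ 1 / 2 - m := by linarith
  have key : 1 + m - ((8 * (3 + 2 * m) ^ 2 / (72 + 132 * m + 65 * m ^ 2)) +
      271829 / 100000 * m * (8 * (3 + 2 * m) ^ 2 / (72 + 132 * m + 65 * m ^ 2)) ^ 2 / (2 + m) +
      2 * (271829 / 100000) ^ 2 * (1 + m) ^ 2 * m ^ 2 *
        (8 * (3 + 2 * m) ^ 2 / (72 + 132 * m + 65 * m ^ 2)) ^ 3 / ((3 + m) * (3 + 4 * m))) =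
      ((3028253589504/3125)*(m^1*(1/2-m)^10) + (128838309930814464/9765625)*(m^2*(1/2-m)^9) + (782191644692477184/9765625)*(m^3*(1/2-m)^8) + (111307078246811904/390625)*(m^4*(1/2-m)^7) + (6407087084638160832/9765625)*(m^5*(1/2-m)^6) + (1988370136200510144/1953125)*(m^6*(1/2-m)^5) + (10477147832635007952/9765625)*(m^7*(1/2-m)^4) + (7349601774772776272/9765625)*(m^8*(1/2-m)^3) + (129775503422839228/390625)*(m^9*(1/2-m)^2) + (795611380267683856/9765625)*(m^10*(1/2-m)^1) + (15659386623192164/1953125)*(m^11*(1/2-m)^0)) /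
        ((72 + 132 * m + 65 * m ^ 2) ^ 3 * (2 + m) * (3 + m) * (3 + 4 * m)) := by
    have e1 : (72 + 132 * m + 65 * m ^ 2) ≠ 0 := by positivity
    have e2 : (2 + m) ≠ 0 := by positivity
    have e3 : (3 + m) ≠ 0 := by positivity
    have e4 : (3 + 4 * m) ≠ 0 := by positivity
    field_simp
    ring
  have h3 : 0 ≤ ((3028253589504/3125)*(m^1*(1/2-m)^10) + (128838309930814464/9765625)*(m^2*(1/2-m)^9) + (782191644692477184/9765625)*(m^3*(1/2-m)^8) + (111307078246811904/390625)*(m^4*(1/2-m)^7) + (6407087084638160832/9765625)*(m^5*(1/2-m)^6) + (1988370136200510144/1953125)*(m^6*(1/2-m)^5) + (10477147832635007952/9765625)*(m^7*(1/2-m)^4) + (7349601774772776272/9765625)*(m^8*(1/2-m)^3) + (129775503422839228/390625)*(m^9*(1/2-m)^2) + (795611380267683856/9765625)*(m^10*(1/2-m)^1) + (15659386623192164/1953125)*(m^11*(1/2-m)^0)) /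
        ((72 + 132 * m + 65 * m ^ 2) ^ 3 * (2 + m) * (3 + m) * (3 + 4 * m)) := by positivity
  rw [← key] at h3
  linarith

/-- splitting of `(1 + m) ^ ⌈x⌉` -/
lemma pow_ceil (m x : ℝ) (hm : 0 < m) (hx : 0 < x) :
    ∃ θ : ℝ, 0 ≤ θ ∧ θ ≤ 1 ∧ (⌈x⌉₊ : ℝ) = x + θ ∧
      (1 + m) ^ ⌈x⌉₊ = (1 + m) ^ x * (1 + m) ^ θ := by
  refine ⟨⌈x⌉₊ - x, ?_, ?_, by ring, ?_⟩
  · linarith [Nat.le_ceil x]
  · linarith [Nat.ceil_lt_add_one hx.le]
  · rw [← Real.rpow_add (by linarith), ← Real.rpow_natCast]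
    congr 1
    ring

lemma bern (s θ : ℝ) (hs : 0 ≤ s) (h0 : 0 ≤ θ) (h1 : θ ≤ 1) : (1 + s) ^ θ ≤ 1 + θ * s :=
  rpow_one_add_le_one_add_mul_self (by linarith) h0 h1

/-- `1 < M ≤ 3/2` -/
lemma Hyp.A (m : ℝ) (H : Hyp t (1 + m)) (h0 : 0 < m) (h1 : m ≤ 1 / 2) (n : ℕ) :
    ∑ j ∈ Ico 1 n, t j ≤ Real.exp 1 * ((1 + m) * m) := by
  have hu0 : 0 ≤ uu m := (Real.exp_pos _).le
  -- first term
  have T1 : t 1 ≤ m * uu m := by
    obtain ⟨θ, hθ0, hθ1, hk, hp⟩ := pow_ceil m (1 / m) h0 (by positivity)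
    have hk1 : 1 ≤ ⌈1 / m⌉₊ := Nat.one_le_iff_ne_zero.2 (by
      have : 0 < ⌈1 / m⌉₊ := Nat.ceil_pos.2 (by positivity)
      omega)
    have h2 := H.le 1 ⌈1 / m⌉₊ hk1
    rw [Nat.factorial_one, Nat.cast_one, one_mul, hp] at h2
    have h3 : ((⌈1 / m⌉₊.ascFactorial 1 : ℕ) : ℝ) = 1 / m + θ := by
      rw [← hk]; simp [Nat.ascFactorial]
    rw [h3] at h2
    have h4 := rpow_le_uu m h0 1
    rw [Nat.cast_one, pow_one] at h4
    have h5 := bern m θ h0.le hθ0 hθ1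
    refine h2.trans ?_
    rw [div_le_iff₀ (by positivity)]
    calc (1 + m) ^ (1 / m) * (1 + m) ^ θ ≤ uu m * (1 + θ * m) :=
          mul_le_mul h4 h5 (by positivity) hu0
      _ = m * uu m * (1 / m + θ) := by field_simp
  have T2 : t 2 ≤ m ^ 2 * uu m ^ 2 / (2 + m) := by
    set x : ℝ := 2 / m with hx
    have hx0 : 0 < x := by positivity
    have hmx : m = 2 / x := by rw [hx]; field_simp
    obtain ⟨θ, hθ0, hθ1, hk, hp⟩ := pow_ceil m x h0 hx0
    have hk1 : 1 ≤ ⌈x⌉₊ := Nat.one_le_iff_ne_zero.2 (by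
      have : 0 < ⌈x⌉₊ := Nat.ceil_pos.2 hx0
      omega)
    have h2 := H.le 2 ⌈x⌉₊ hk1
    rw [hp] at h2
    have h3 : ((⌈x⌉₊.ascFactorial 2 : ℕ) : ℝ) = (x + θ) * (x + θ + 1) := by
      rw [← hk]; simp [Nat.ascFactorial]; ring
    rw [h3, Nat.factorial_two] at h2
    have h4 := rpow_le_uu m h0 2
    have h4' : (1 + m) ^ x ≤ uu m ^ 2 := by
      rw [hx]; exact_mod_cast h4
    have h5 : (1 + m) ^ θ ≤ (1 + θ * (1 / x)) * (1 + θ * (1 / (x + 1))) := by
      have e : 1 + m = (1 + 1 / x) * (1 + 1 / (x + 1)) := by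
        rw [hmx]; field_simp; ring
      rw [e, Real.mul_rpow (by positivity) (by positivity)]
      exact mul_le_mul (bern _ _ (by positivity) hθ0 hθ1) (bern _ _ (by positivity) hθ0 hθ1)
        (by positivity) (by positivity)
    refine h2.trans ?_
    rw [div_le_iff₀ (by positivity)]
    calc ((2 : ℕ) : ℝ) * ((1 + m) ^ x * (1 + m) ^ θ)
        ≤ 2 * (uu m ^ 2 * ((1 + θ * (1 / x)) * (1 + θ * (1 / (x + 1))))) := by
          push_cast
          refine mul_le_mul_of_nonneg_left ?_ (by norm_num)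
          exact mul_le_mul h4' h5 (by positivity) (by positivity)
      _ = m ^ 2 * uu m ^ 2 / (2 + m) * ((x + θ) * (x + θ + 1)) := by
          rw [hmx]; field_simp; ring
  -- the tail
  set x : ℝ := 3 / m with hx
  have hx0 : 0 < x := by positivity
  have hmx : m = 3 / x := by rw [hx]; field_simp
  obtain ⟨θ, hθ0, hθ1, hk, hp⟩ := pow_ceil m x h0 hx0
  have hk1 : 1 ≤ ⌈x⌉₊ := Nat.one_le_iff_ne_zero.2 (by
    have : 0 < ⌈x⌉₊ := Nat.ceil_pos.2 hx0
    omega)
  set k := ⌈x⌉₊ with hkdef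
  have h := H.split (by linarith) 3 (k + 1) (by norm_num) (by omega) n
  have hs : ∑ j ∈ Ico 1 3, t j = t 1 + t 2 := by
    simp [Finset.sum_Ico_eq_sum_range, Finset.sum_range_succ]
  rw [hs] at h
  have htau : tau (k + 1) 3 = 6 / ((x + θ) * (x + θ + 2) * (x + θ + 3)) := by
    unfold tau
    rw [← hk]
    simp [Nat.ascFactorial, Nat.factorial]
    have : (k : ℝ) ≠ 0 := by rw [hk]; positivity
    field_simp
    ring
  rw [htau, show k + 1 + 1 = k + 2 from rfl, pow_add, hp] at h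
  have h4 := rpow_le_uu m h0 3
  have h4' : (1 + m) ^ x ≤ uu m ^ 3 := by
    rw [hx]; exact_mod_cast h4
  have h5 : (1 + m) ^ θ ≤ (1 + θ * (1 / x)) * (1 + θ * (1 / (x + 1))) * (1 + θ * (1 / (x + 2))) := by
    have e : 1 + m = (1 + 1 / x) * (1 + 1 / (x + 1)) * (1 + 1 / (x + 2)) := by
      rw [hmx]; field_simp; ring
    rw [e, Real.mul_rpow (by positivity) (by positivity), Real.mul_rpow (by positivity) (by positivity)]
    exact mul_le_mul (mul_le_mul (bern _ _ (by positivity) hθ0 hθ1)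
      (bern _ _ (by positivity) hθ0 hθ1) (by positivity) (by positivity))
      (bern _ _ (by positivity) hθ0 hθ1) (by positivity) (by positivity)
  have T3 : (1 + m) ^ x * (1 + m) ^ θ * (1 + m) ^ 2 * (6 / ((x + θ) * (x + θ + 2) * (x + θ + 3))) ≤
      2 * (1 + m) ^ 2 * m ^ 3 * uu m ^ 3 / ((3 + m) * (3 + 4 * m)) := by
    have h6 : (1 + m) ^ x * (1 + m) ^ θ ≤
        uu m ^ 3 * ((1 + θ * (1 / x)) * (1 + θ * (1 / (x + 1))) * (1 + θ * (1 / (x + 2)))) :=
      mul_le_mul h4' h5 (by positivity) (by positivity)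
    have h7 : (1 + m) ^ x * (1 + m) ^ θ * (1 + m) ^ 2 *
        (6 / ((x + θ) * (x + θ + 2) * (x + θ + 3))) ≤
        uu m ^ 3 * ((1 + θ * (1 / x)) * (1 + θ * (1 / (x + 1))) * (1 + θ * (1 / (x + 2)))) *
          (1 + m) ^ 2 * (6 / ((x + θ) * (x + θ + 2) * (x + θ + 3))) := by
      refine mul_le_mul_of_nonneg_right ?_ (by positivity)
      exact mul_le_mul_of_nonneg_right h6 (by positivity)
    refine h7.trans ?_
    have e1 : uu m ^ 3 * ((1 + θ * (1 / x)) * (1 + θ * (1 / (x + 1))) * (1 + θ * (1 / (x + 2)))) *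
          (1 + m) ^ 2 * (6 / ((x + θ) * (x + θ + 2) * (x + θ + 3))) =
        6 * (1 + m) ^ 2 * uu m ^ 3 * ((x + θ + 1) / (x + θ + 3) / (x * (x + 1) * (x + 2))) := by
      field_simp
      ring
    have e2 : 2 * (1 + m) ^ 2 * m ^ 3 * uu m ^ 3 / ((3 + m) * (3 + 4 * m)) =
        6 * (1 + m) ^ 2 * uu m ^ 3 * ((x + 2) / (x + 4) / (x * (x + 1) * (x + 2))) := by
      have : (1 + m) = (x + 3) / x := by rw [hmx]; field_simp
      rw [this, hmx]; field_simp; ring
    rw [e1, e2]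
    refine mul_le_mul_of_nonneg_left ?_ (by positivity)
    refine div_le_div_of_nonneg_right ?_ (by positivity)
    rw [div_le_div_iff₀ (by positivity) (by positivity)]
    nlinarith
  -- the conclusion
  set E := Real.exp 1 with hE
  have hE0 : 0 < E := Real.exp_pos 1
  have hE1 : E ≤ 271829 / 100000 := by
    have := Real.exp_one_lt_d9; rw [hE]; linarith
  set r := 8 * (3 + 2 * m) ^ 2 / (72 + 132 * m + 65 * m ^ 2) with hr
  have hr0 : 0 ≤ r := by positivity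
  have hur : uu m ≤ E * r := uu_le m h0.le
  have hA := ineqA m h0.le h1
  rw [← hr] at hA
  have S1 : m * uu m ≤ m * (E * r) := mul_le_mul_of_nonneg_left hur h0.le
  have S2 : m ^ 2 * uu m ^ 2 / (2 + m) ≤ m * E * (271829 / 100000 * m * r ^ 2 / (2 + m)) := by
    have a1 : uu m ^ 2 ≤ (E * r) ^ 2 := pow_le_pow_left₀ hu0 hur 2
    have a2 : (E * r) ^ 2 ≤ E * (271829 / 100000) * r ^ 2 := by
      have : E ^ 2 ≤ E * (271829 / 100000) := by nlinarith
      calc (E * r) ^ 2 = E ^ 2 * r ^ 2 := by ring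
        _ ≤ _ := mul_le_mul_of_nonneg_right this (by positivity)
    have a3 : m ^ 2 * uu m ^ 2 / (2 + m) ≤ m ^ 2 * (E * (271829 / 100000) * r ^ 2) / (2 + m) :=
      div_le_div_of_nonneg_right (mul_le_mul_of_nonneg_left (a1.trans a2) (by positivity))
        (by positivity)
    refine a3.trans (le_of_eq ?_)
    ring
  have S3 : 2 * (1 + m) ^ 2 * m ^ 3 * uu m ^ 3 / ((3 + m) * (3 + 4 * m)) ≤
      m * E * (2 * (271829 / 100000) ^ 2 * (1 + m) ^ 2 * m ^ 2 * r ^ 3 /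
        ((3 + m) * (3 + 4 * m))) := by
    have a1 : uu m ^ 3 ≤ (E * r) ^ 3 := pow_le_pow_left₀ hu0 hur 3
    have a2 : (E * r) ^ 3 ≤ E * (271829 / 100000) ^ 2 * r ^ 3 := by
      have : E ^ 2 ≤ (271829 / 100000) ^ 2 := pow_le_pow_left₀ hE0.le hE1 2
      calc (E * r) ^ 3 = (E * r ^ 3) * E ^ 2 := by ring
        _ ≤ (E * r ^ 3) * (271829 / 100000) ^ 2 := mul_le_mul_of_nonneg_left this (by positivity)
        _ = _ := by ring
    have a3 : 2 * (1 + m) ^ 2 * m ^ 3 * uu m ^ 3 / ((3 + m) * (3 + 4 * m)) ≤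
        2 * (1 + m) ^ 2 * m ^ 3 * (E * (271829 / 100000) ^ 2 * r ^ 3) / ((3 + m) * (3 + 4 * m)) :=
      div_le_div_of_nonneg_right (mul_le_mul_of_nonneg_left (a1.trans a2) (by positivity))
        (by positivity)
    refine a3.trans (le_of_eq ?_)
    ring
  have hfin : m * E * (r + 271829 / 100000 * m * r ^ 2 / (2 + m) +
      2 * (271829 / 100000) ^ 2 * (1 + m) ^ 2 * m ^ 2 * r ^ 3 / ((3 + m) * (3 + 4 * m))) ≤
      m * E * (1 + m) := mul_le_mul_of_nonneg_left hA (by positivity)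
  have e3 : m * E * (r + 271829 / 100000 * m * r ^ 2 / (2 + m) +
      2 * (271829 / 100000) ^ 2 * (1 + m) ^ 2 * m ^ 2 * r ^ 3 / ((3 + m) * (3 + 4 * m))) =
      m * (E * r) + m * E * (271829 / 100000 * m * r ^ 2 / (2 + m)) +
        m * E * (2 * (271829 / 100000) ^ 2 * (1 + m) ^ 2 * m ^ 2 * r ^ 3 /
          ((3 + m) * (3 + 4 * m))) := by ring
  rw [e3] at hfin
  calc ∑ j ∈ Ico 1 n, t j ≤ _ := h
    _ ≤ m * E * (1 + m) := by linarith
    _ = E * ((1 + m) * m) := by ring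

lemma Hyp.mono {M' : ℝ} (H : Hyp t M) (h0 : 0 ≤ M) (h : M ≤ M') : Hyp t M' :=
  ⟨H.1, fun j k hk => (H.2 j k hk).trans
    (mul_le_mul_of_nonneg_left (pow_le_pow_left₀ h0 h k) (Nat.cast_nonneg _))⟩

/-- The inequality for all `M ≥ 1`. -/
theorem Hyp.main (H : Hyp t M) (hM : 1 ≤ M) (n : ℕ) :
    ∑ j ∈ Ico 1 n, t j ≤ Real.exp 1 * (M * (M - 1)) := by
  rcases hM.eq_or_lt with h | h
  · subst h
    apply le_of_forall_pos_le_add
    intro ε hε
    set δ := min (1 / 2) (ε / 6) with hδ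
    have hδ0 : 0 < δ := by positivity
    have hδ1 : δ ≤ 1 / 2 := min_le_left _ _
    have hδ2 : δ ≤ ε / 6 := min_le_right _ _
    have h1 := (H.mono (by norm_num) (by linarith : (1 : ℝ) ≤ 1 + δ)).A δ hδ0 hδ1 n
    refine h1.trans ?_
    have he := Real.exp_one_lt_d9
    have he0 := Real.exp_pos 1
    have h2 : (1 + δ) * δ ≤ 3 / 2 * δ := by nlinarith
    have h3 : Real.exp 1 * ((1 + δ) * δ) ≤ 3 * (3 / 2 * δ) :=
      mul_le_mul (by linarith) h2 (by positivity) (by norm_num)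
    nlinarith
  · by_cases h1 : M ≤ 3 / 2
    · have h2 : 1 + (M - 1) = M := by ring
      have := Hyp.A (t := t) (M - 1) (by rwa [h2]) (by linarith) (by linarith) n
      rwa [h2] at this
    · push Not at h1
      by_cases h2 : M ≤ 15 / 8
      · exact H.B1 h1.le h2 n
      · push Not at h2
        by_cases h3 : M ≤ 27 / 10
        · exact H.B2 h2.le h3 n
        · push Not at h3
          by_cases h4 : M ≤ 4
          · exact H.B3 h3.le h4 n
          · push Not at h4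
            by_cases h5 : M ≤ 5
            · exact H.B4 h4.le h5 n
            · push Not at h5
              exact H.C h5.le n

end Pool.Agent.U451.PS
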