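import Mathlib

set_option autoImplicit false

/-!
# Bounds for the powers of an element of a Banach algebra from a resolvent bound on `|z| ≥ 1`

If the spectrum of `a` lies in the open unit disc and `‖(z - a)⁻¹‖ ≤ M` on the unit circle then
`k (k+1) ⋯ (k+j-1) ‖a ^ j‖ ≤ j! M ^ k` for all `j` and all `k ≥ 1` (Cauchy estimates for the
Taylor coefficients of `w ↦ (1 - w a)⁻ᵏ`).
-/

namespace Pool.Agent.U451.PS

open Metric

variable {A : Type*} [NormedRing A] [NormedAlgebra ℂ A] [CompleteSpace A]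

/-- `g a w = (1 - w a)⁻¹` -/
noncomputable def g (a : A) (w : ℂ) : A := Ring.inverse (1 - w • a)

omit [CompleteSpace A] in
lemma one_sub_eq (a : A) {w : ℂ} (h0 : w ≠ 0) :
    (1 : A) - w • a = w • (algebraMap ℂ A w⁻¹ - a) := by
  rw [smul_sub, Algebra.algebraMap_eq_smul_one, smul_smul, mul_inv_cancel₀ h0, one_smul]

lemma isUnit_of {a : A} (ha : ∀ z ∈ spectrum ℂ a, ‖z‖ < 1) {w : ℂ} (hw : ‖w‖ ≤ 1) :
    IsUnit (1 - w • a) := by
  by_cases h0 : w = 0
  · subst h0; simp
  · have h1 : w⁻¹ ∉ spectrum ℂ a := by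
      intro h
      have := ha _ h
      rw [norm_inv] at this
      have h2 : 0 < ‖w‖ := norm_pos_iff.2 h0
      have h3 : 1 ≤ ‖w‖⁻¹ := (one_le_inv₀ h2).2 hw
      linarith
    rw [spectrum.notMem_iff] at h1
    rw [one_sub_eq a h0]
    exact (isUnit_smul_iff (Units.mk0 w h0) _).2 h1

lemma g_eq_resolvent {a : A} (ha : ∀ z ∈ spectrum ℂ a, ‖z‖ < 1) {w : ℂ} (hw : ‖w‖ ≤ 1)
    (h0 : w ≠ 0) : g a w = w⁻¹ • resolvent a w⁻¹ := by
  have h1 : IsUnit (1 - w • a) := isUnit_of ha hw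
  have h2 : IsUnit (algebraMap ℂ A w⁻¹ - a) := by
    rw [one_sub_eq a h0] at h1
    exact (isUnit_smul_iff (Units.mk0 w h0) _).1 h1
  have h3 : (1 - w • a) * (w⁻¹ • resolvent a w⁻¹) = 1 := by
    rw [one_sub_eq a h0, smul_mul_smul_comm, mul_inv_cancel₀ h0, one_smul]
    exact Ring.mul_inverse_cancel _ h2
  have h4 : g a w * (1 - w • a) = 1 := Ring.inverse_mul_cancel _ h1
  calc g a w = g a w * ((1 - w • a) * (w⁻¹ • resolvent a w⁻¹)) := by rw [h3, mul_one]
    _ = w⁻¹ • resolvent a w⁻¹ := by rw [← mul_assoc, h4, one_mul]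

omit [CompleteSpace A] in
lemma commute_g (a : A) (w : ℂ) : Commute a (g a w) := by
  unfold g
  by_cases h : IsUnit (1 - w • a)
  · obtain ⟨u, hu⟩ := h
    rw [← hu, Ring.inverse_unit]
    apply Commute.units_inv_right
    rw [hu]
    exact (Commute.one_right a).sub_right ((Commute.refl a).smul_right w)
  · rw [Ring.inverse_non_unit _ h]
    exact Commute.zero_right a

lemma hasDerivAt_g {a : A} {w : ℂ} (h : IsUnit (1 - w • a)) :
    HasDerivAt (g a) (a * g a w ^ 2) w := by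
  obtain ⟨u, hu⟩ := h
  have h1 := hasFDerivAt_ringInverse (𝕜 := ℂ) u
  have h2 : HasDerivAt (fun w : ℂ => (1 : A) - w • a) (-a) w := by
    have := ((hasDerivAt_id w).smul_const a).const_sub (1 : A)
    simpa using this
  rw [hu] at h1
  have h3 := h1.comp_hasDerivAt w h2
  have h4 : g a w = ((u⁻¹ : Aˣ) : A) := by
    unfold g; rw [← hu, Ring.inverse_unit]
  have h5 := commute_g a w
  have h6 : (-((ContinuousLinearMap.mulLeftRight ℂ A) ((u⁻¹ : Aˣ) : A)) ((u⁻¹ : Aˣ) : A)) (-a) =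
      a * g a w ^ 2 := by
    rw [h4] at h5 ⊢
    simp only [ContinuousLinearMap.neg_apply, ContinuousLinearMap.mulLeftRight_apply, mul_neg,
      neg_mul, neg_neg]
    rw [pow_two, ← mul_assoc, h5.eq]
  rw [h6] at h3
  exact h3

lemma hasDerivAt_g_pow {a : A} {w : ℂ} (h : IsUnit (1 - w • a)) (k : ℕ) :
    HasDerivAt (fun w => g a w ^ k) ((k : ℂ) • (a * g a w ^ (k + 1))) w := by
  induction k with
  | zero => simpa using hasDerivAt_const w (1 : A)
  | succ k ih =>
    have h1 := ih.mul (hasDerivAt_g h)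
    have h2 : ((fun w => g a w ^ k) * g a) = fun w => g a w ^ (k + 1) := by
      funext w; simp [pow_succ]
    rw [h2] at h1
    convert h1 using 1
    have hc : Commute a (g a w ^ k) := (commute_g a w).pow_right k
    rw [smul_mul_assoc, mul_assoc, ← pow_succ, ← mul_assoc (g a w ^ k), ← hc.eq, mul_assoc,
      ← pow_add]
    push_cast
    rw [add_smul, one_smul]

lemma iteratedDeriv_g {a : A} (ha : ∀ z ∈ spectrum ℂ a, ‖z‖ < 1) (k n : ℕ) :
    ∀ w ∈ ball (0 : ℂ) 1, iteratedDeriv n (fun w => g a w ^ k) w =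
      (k.ascFactorial n : ℂ) • (a ^ n * g a w ^ (k + n)) := by
  induction n with
  | zero => intro w _; simp
  | succ n ih =>
    intro w hw
    have hw' : ‖w‖ ≤ 1 := by simpa using (mem_ball_zero_iff.1 hw).le
    rw [iteratedDeriv_succ]
    have h1 : iteratedDeriv n (fun w => g a w ^ k) =ᶠ[nhds w]
        fun w => (k.ascFactorial n : ℂ) • (a ^ n * g a w ^ (k + n)) := by
      filter_upwards [isOpen_ball.mem_nhds hw] with x hx using ih x hx
    rw [h1.deriv_eq]
    have h2 := ((hasDerivAt_g_pow (isUnit_of ha hw') (k + n)).const_mul (a ^ n)).const_smul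
      (k.ascFactorial n : ℂ)
    have h3 : HasDerivAt (fun w => (k.ascFactorial n : ℂ) • (a ^ n * g a w ^ (k + n)))
        ((k.ascFactorial n : ℂ) • (a ^ n * (((k + n : ℕ) : ℂ) • (a * g a w ^ (k + n + 1))))) w := h2
    rw [h3.deriv, mul_smul_comm, smul_smul, ← mul_assoc, ← pow_succ, Nat.ascFactorial_succ]
    push_cast
    rw [mul_comm ((k : ℂ) + n)]
    rfl

/-- The main bound. -/
theorem norm_pow_bound {a : A} (ha : ∀ z ∈ spectrum ℂ a, ‖z‖ < 1) {M : ℝ}
    (hM : ∀ z : ℂ, 1 ≤ ‖z‖ → ‖resolvent a z‖ ≤ M) (j k : ℕ) (hk : 1 ≤ k) :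
    (k.ascFactorial j : ℝ) * ‖a ^ j‖ ≤ (j.factorial : ℝ) * M ^ k := by
  have h1 : DiffContOnCl ℂ (fun w => g a w ^ k) (ball 0 1) := by
    apply DifferentiableOn.diffContOnCl
    rw [closure_ball _ one_ne_zero]
    intro w hw
    have hw' : ‖w‖ ≤ 1 := by simpa using hw
    exact (hasDerivAt_g_pow (isUnit_of ha hw') k).differentiableAt.differentiableWithinAt
  have h2 : ∀ z ∈ sphere (0 : ℂ) 1, ‖g a z ^ k‖ ≤ M ^ k := by
    intro z hz
    have hz1 : ‖z‖ = 1 := by simpa using hz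
    have hz0 : z ≠ 0 := by
      intro h; rw [h] at hz1; simp at hz1
    refine (norm_pow_le' _ (by omega)).trans ?_
    refine pow_le_pow_left₀ (norm_nonneg _) ?_ k
    rw [g_eq_resolvent ha hz1.le hz0, norm_smul, norm_inv, hz1, inv_one, one_mul]
    exact hM _ (by rw [norm_inv, hz1, inv_one])
  have h3 := Complex.norm_iteratedDeriv_le_of_forall_mem_sphere_norm_le j one_pos h1 h2
  rw [iteratedDeriv_g ha k j 0 (by simp)] at h3
  have h4 : g a 0 = 1 := by simp [g]
  rw [h4, one_pow, mul_one, norm_smul, one_pow, div_one] at h3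
  simpa using h3

end Pool.Agent.U451.PS
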