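import Mathlib

set_option autoImplicit false

/-!
# Ritt operators with large powers: the logarithmic profile

`G n s = ∑_{j ≤ n, |s - n| < j} 1 / j` is a truncated logarithm with peak at `s = n`.
For all `|w| ≤ 1` one has `|(1 - w) ∑_r w ^ r G (s + r)| ≤ 6 + 2 G s`.
-/

namespace Pool.Agent.U451.Ritt

open Finset

/-- Abel summation bound. -/
lemma abel (c : ℕ → ℂ) (a b : ℕ) (ha : 1 ≤ a) (hab : a ≤ b) (D : ℝ)
    (hD : ∀ k, a ≤ k → k ≤ b → ‖∑ j ∈ Ico a k, c j‖ ≤ D) :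
    ‖∑ j ∈ Ico a b, c j / (j : ℂ)‖ ≤ D / a := by
  have key : ∀ b, a ≤ b → ∑ j ∈ Ico a b, c j / (j : ℂ) =
      (∑ j ∈ Ico a b, c j) / (b : ℂ) +
        ∑ j ∈ Ico a b, (∑ i ∈ Ico a (j + 1), c i) * ((1 / (j : ℝ) - 1 / ((j : ℝ) + 1) : ℝ) : ℂ) := by
    intro b hab
    induction b, hab using Nat.le_induction with
    | base => simp
    | succ b hb ih =>
      rw [Finset.sum_Ico_succ_top hb, ih, Finset.sum_Ico_succ_top hb (fun j => (∑ i ∈ Ico a (j + 1), c i) *
        ((1 / (j : ℝ) - 1 / ((j : ℝ) + 1) : ℝ) : ℂ)), Finset.sum_Ico_succ_top hb (fun j => c j)]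
      have h1 : (b : ℂ) ≠ 0 := by
        have : b ≠ 0 := by omega
        exact_mod_cast this
      have h2 : ((b : ℂ) + 1) ≠ 0 := by exact_mod_cast Nat.succ_ne_zero b
      push_cast
      field_simp
      ring
  rw [key b hab]
  have hD0 : 0 ≤ D := (norm_nonneg _).trans (hD a le_rfl hab)
  have tel : ∀ b, a ≤ b → ∑ j ∈ Ico a b, (1 / (j : ℝ) - 1 / ((j : ℝ) + 1)) = 1 / (a : ℝ) - 1 / b := by
    intro b hab
    induction b, hab using Nat.le_induction with
    | base => simp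
    | succ b hb ih =>
      rw [Finset.sum_Ico_succ_top hb, ih]
      push_cast
      ring
  have hb0 : (0 : ℝ) < b := by
    have : 0 < b := by omega
    exact_mod_cast this
  have h1 : ‖(∑ j ∈ Ico a b, c j) / (b : ℂ)‖ ≤ D / b := by
    rw [norm_div, Complex.norm_natCast]
    exact div_le_div_of_nonneg_right (hD b hab le_rfl) hb0.le
  have h2 : ‖∑ j ∈ Ico a b, (∑ i ∈ Ico a (j + 1), c i) *
      ((1 / (j : ℝ) - 1 / ((j : ℝ) + 1) : ℝ) : ℂ)‖ ≤ D * (1 / (a : ℝ) - 1 / b) := by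
    rw [← tel b hab, Finset.mul_sum]
    refine norm_sum_le_of_le _ fun j hj => ?_
    rw [Finset.mem_Ico] at hj
    have hj0 : (0 : ℝ) < j := by
      have : 0 < j := by omega
      exact_mod_cast this
    have h3 : 0 ≤ 1 / (j : ℝ) - 1 / ((j : ℝ) + 1) := by
      rw [sub_nonneg]
      exact one_div_le_one_div_of_le hj0 (by linarith)
    rw [norm_mul, Complex.norm_real, Real.norm_of_nonneg h3]
    exact mul_le_mul_of_nonneg_right (hD (j + 1) (by omega) (by omega)) h3
  refine (norm_add_le _ _).trans ?_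
  have h3 : D / (b : ℝ) + D * (1 / (a : ℝ) - 1 / b) = D / a := by ring
  linarith

lemma geom_up (w : ℂ) (p a k : ℕ) (h : a ≤ k) :
    (1 - w) * ∑ j ∈ Ico a k, w ^ (p + j) = w ^ (p + a) - w ^ (p + k) := by
  induction k, h using Nat.le_induction with
  | base => simp
  | succ k hk ih =>
    rw [Finset.sum_Ico_succ_top hk, mul_add, ih]
    ring

lemma geom_down (w : ℂ) (p a k : ℕ) (h : a ≤ k) (hk : k ≤ p + 1) :
    (1 - w) * ∑ j ∈ Ico a k, w ^ (p + 1 - j) = w ^ (p + 2 - k) - w ^ (p + 2 - a) := by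
  induction k, h using Nat.le_induction with
  | base => simp
  | succ k hk' ih =>
    rw [Finset.sum_Ico_succ_top hk', mul_add, ih (by omega)]
    have h1 : p + 2 - k = (p + 1 - k) + 1 := by omega
    have h2 : p + 2 - (k + 1) = p + 1 - k := by omega
    rw [h1, h2]
    ring

lemma norm_pow_le_one {w : ℂ} (hw : ‖w‖ ≤ 1) (k : ℕ) : ‖w ^ k‖ ≤ 1 := by
  rw [norm_pow]; exact pow_le_one₀ (norm_nonneg _) hw

lemma norm_one_sub_pow {w : ℂ} (hw : ‖w‖ ≤ 1) (k : ℕ) : ‖1 - w ^ k‖ ≤ k * ‖1 - w‖ := by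
  have h := geom_up w 0 0 k (Nat.zero_le k)
  simp only [zero_add, pow_zero] at h
  rw [← h, norm_mul, mul_comm]
  refine mul_le_mul_of_nonneg_right ?_ (norm_nonneg _)
  refine (norm_sum_le_of_le _ (fun j _ => norm_pow_le_one hw j)).trans ?_
  simp

/-- `F p w = ∑_{1 ≤ j ≤ p} (w ^ (p + 1 - j) - w ^ (p + j)) / j` -/
noncomputable def F (p : ℕ) (w : ℂ) : ℂ :=
  ∑ j ∈ Ico 1 (p + 1), (w ^ (p + 1 - j) - w ^ (p + j)) / (j : ℂ)

theorem norm_F_le (p : ℕ) {w : ℂ} (hw : ‖w‖ ≤ 1) : ‖F p w‖ ≤ 6 := by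
  set δ := ‖1 - w‖ with hδ
  rcases (norm_nonneg (1 - w)).eq_or_lt with h0 | h0
  · have : 1 - w = 0 := norm_eq_zero.1 h0.symm
    have hw1 : w = 1 := by linear_combination -this
    rw [hw1]
    simp [F]
  rw [← hδ] at h0
  set J := min (⌊1 / δ⌋₊ + 1) (p + 1) with hJ
  have hJ1 : 1 ≤ J := by omega
  have hJ2 : J ≤ p + 1 := by omega
  have hsplit : F p w = ∑ j ∈ Ico 1 J, (w ^ (p + 1 - j) - w ^ (p + j)) / (j : ℂ) +
      (∑ j ∈ Ico J (p + 1), w ^ (p + 1 - j) / (j : ℂ) -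
        ∑ j ∈ Ico J (p + 1), w ^ (p + j) / (j : ℂ)) := by
    unfold F
    rw [← Finset.sum_Ico_consecutive _ hJ1 hJ2, ← Finset.sum_sub_distrib]
    congr 1
    refine Finset.sum_congr rfl fun j _ => ?_
    ring
  have hA : ‖∑ j ∈ Ico 1 J, (w ^ (p + 1 - j) - w ^ (p + j)) / (j : ℂ)‖ ≤ 2 := by
    have h1 : ∀ j ∈ Ico 1 J, ‖(w ^ (p + 1 - j) - w ^ (p + j)) / (j : ℂ)‖ ≤ 2 * δ := by
      intro j hj
      rw [Finset.mem_Ico] at hj
      have hj0 : (0 : ℝ) < j := by
        have : 0 < j := by omega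
        exact_mod_cast this
      have e : p + j = (p + 1 - j) + (2 * j - 1) := by omega
      have h2 : w ^ (p + 1 - j) - w ^ (p + j) = w ^ (p + 1 - j) * (1 - w ^ (2 * j - 1)) := by
        conv_lhs => rw [e, pow_add]
        ring
      rw [h2, norm_div, norm_mul, Complex.norm_natCast, div_le_iff₀ hj0]
      have h3 := norm_one_sub_pow hw (2 * j - 1)
      have h4 : ((2 * j - 1 : ℕ) : ℝ) ≤ 2 * j := by
        have : 2 * j - 1 ≤ 2 * j := by omega
        exact_mod_cast this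
      calc ‖w ^ (p + 1 - j)‖ * ‖1 - w ^ (2 * j - 1)‖ ≤ 1 * (((2 * j - 1 : ℕ) : ℝ) * δ) :=
            mul_le_mul (norm_pow_le_one hw _) h3 (norm_nonneg _) zero_le_one
        _ ≤ 2 * j * δ := by
            rw [one_mul]; exact mul_le_mul_of_nonneg_right h4 h0.le
        _ = 2 * δ * j := by ring
    refine (norm_sum_le_of_le _ h1).trans ?_
    rw [Finset.sum_const, Nat.card_Ico, nsmul_eq_mul]
    have h5 : J - 1 ≤ ⌊1 / δ⌋₊ := by omega
    have h6 : ((J - 1 : ℕ) : ℝ) ≤ 1 / δ := (Nat.cast_le.2 h5).trans (Nat.floor_le (by positivity))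
    calc ((J - 1 : ℕ) : ℝ) * (2 * δ) ≤ 1 / δ * (2 * δ) :=
          mul_le_mul_of_nonneg_right h6 (by positivity)
      _ = 2 := by field_simp
  -- the tails
  have tail : ∀ c : ℕ → ℂ, (∀ k, J ≤ k → k ≤ p + 1 → ‖∑ j ∈ Ico J k, c j‖ ≤ 2 / δ) →
      ‖∑ j ∈ Ico J (p + 1), c j / (j : ℂ)‖ ≤ 2 := by
    intro c hc
    by_cases hlt : ⌊1 / δ⌋₊ + 1 ≤ p + 1
    · have hJe : J = ⌊1 / δ⌋₊ + 1 := by omega
      refine (abel c J (p + 1) hJ1 hJ2 (2 / δ) hc).trans ?_
      have h1 : 1 / δ < J := by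
        rw [hJe]; push_cast; exact Nat.lt_floor_add_one _
      have hJ0 : (0 : ℝ) < J := lt_trans (by positivity) h1
      rw [div_le_iff₀ hJ0]
      have h3 : 2 / δ = 2 * (1 / δ) := by ring
      linarith
    · have hJe : J = p + 1 := by omega
      rw [hJe]; simp
  have hsum : ∀ S x y : ℂ, (1 - w) * S = x - y → ‖x‖ ≤ 1 → ‖y‖ ≤ 1 → ‖S‖ ≤ 2 / δ := by
    intro S x y h hx hy
    rw [le_div_iff₀ h0, hδ, mul_comm, ← norm_mul, h]
    exact (norm_sub_le _ _).trans (by linarith)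
  have hB : ‖∑ j ∈ Ico J (p + 1), w ^ (p + 1 - j) / (j : ℂ)‖ ≤ 2 :=
    tail _ fun k hk1 hk2 => hsum _ _ _ (geom_down w p J k hk1 hk2) (norm_pow_le_one hw _)
      (norm_pow_le_one hw _)
  have hC : ‖∑ j ∈ Ico J (p + 1), w ^ (p + j) / (j : ℂ)‖ ≤ 2 :=
    tail _ fun k hk1 hk2 => hsum _ _ _ (geom_up w p J k hk1) (norm_pow_le_one hw _)
      (norm_pow_le_one hw _)
  rw [hsplit]
  refine (norm_add_le _ _).trans ?_
  have := norm_sub_le (∑ j ∈ Ico J (p + 1), w ^ (p + 1 - j) / (j : ℂ))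
    (∑ j ∈ Ico J (p + 1), w ^ (p + j) / (j : ℂ))
  linarith

/-- the truncated logarithm -/
noncomputable def G (n s : ℕ) : ℝ :=
  ∑ j ∈ Ico 1 (n + 1), if n < s + j ∧ s < n + j then 1 / (j : ℝ) else 0

lemma G_nonneg (n s : ℕ) : 0 ≤ G n s := by
  unfold G
  refine Finset.sum_nonneg fun j _ => ?_
  split_ifs <;> positivity

lemma G_zero (n : ℕ) : G n 0 = 0 := by
  unfold G
  refine Finset.sum_eq_zero fun j hj => ?_
  rw [Finset.mem_Ico] at hj
  rw [if_neg]; omega

lemma G_large (n s : ℕ) (hs : 2 * n ≤ s) : G n s = 0 := by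
  unfold G
  refine Finset.sum_eq_zero fun j hj => ?_
  rw [Finset.mem_Ico] at hj
  rw [if_neg]; omega

lemma G_peak (n : ℕ) : Real.log (n + 1) ≤ G n n := by
  have h1 : G n n = ((harmonic n : ℚ) : ℝ) := by
    unfold G harmonic
    push_cast
    rw [Finset.sum_Ico_eq_sum_range]
    refine Finset.sum_congr (by simp) fun j hj => ?_
    rw [if_pos (by omega)]
    push_cast
    rw [one_div, add_comm]
  rw [h1]
  exact_mod_cast log_add_one_le_harmonic n

lemma sum_G (n : ℕ) : ∑ s ∈ range (2 * n), G n s ≤ 2 * n := by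
  unfold G
  rw [Finset.sum_comm]
  have h : ∀ j ∈ Ico 1 (n + 1), ∑ s ∈ range (2 * n),
      (if n < s + j ∧ s < n + j then 1 / (j : ℝ) else 0) ≤ 2 := by
    intro j hj
    rw [Finset.mem_Ico] at hj
    rw [← Finset.sum_filter, Finset.sum_const, nsmul_eq_mul]
    have hj0 : (0 : ℝ) < j := by
      have : 0 < j := by omega
      exact_mod_cast this
    have hc : ((range (2 * n)).filter fun s => n < s + j ∧ s < n + j).card ≤ 2 * j := by
      have : ((range (2 * n)).filter fun s => n < s + j ∧ s < n + j) ⊆ Ico (n - j) (n + j) := by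
        intro s hs
        rw [Finset.mem_filter] at hs
        rw [Finset.mem_Ico]; omega
      refine (Finset.card_le_card this).trans ?_
      rw [Nat.card_Ico]; omega
    rw [mul_one_div, div_le_iff₀ hj0]
    exact_mod_cast hc
  refine (Finset.sum_le_sum h).trans ?_
  rw [Finset.sum_const, Nat.card_Ico, nsmul_eq_mul]
  simp [mul_comm]

/-- The main estimate for the profile. -/
theorem profile (n s : ℕ) {w : ℂ} (hw : ‖w‖ ≤ 1) :
    ‖(1 - w) * ∑ r ∈ range (2 * n), w ^ r * (G n (s + r) : ℂ)‖ ≤ 6 + 2 * G n s := by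
  have e1 : (1 - w) * ∑ r ∈ range (2 * n), w ^ r * (G n (s + r) : ℂ) =
      ∑ j ∈ Ico 1 (n + 1),
        (if s < n + j then (w ^ (n + 1 - (s + j)) - w ^ (n + j - s)) / (j : ℂ) else 0) := by
    unfold G
    push_cast
    simp_rw [Finset.mul_sum]
    rw [Finset.sum_comm]
    refine Finset.sum_congr rfl fun j hj => ?_
    rw [Finset.mem_Ico] at hj
    have e2 : ∀ r ∈ range (2 * n), (1 - w) * (w ^ r *
        ((if n < s + r + j ∧ s + r < n + j then 1 / (j : ℝ) else 0 : ℝ) : ℂ)) =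
        (if r ∈ Ico (n + 1 - (s + j)) (n + j - s) then (1 - w) * w ^ r / (j : ℂ) else 0) := by
      intro r _
      by_cases h : n < s + r + j ∧ s + r < n + j
      · rw [if_pos h, if_pos (by rw [Finset.mem_Ico]; omega)]
        push_cast
        ring
      · rw [if_neg h, if_neg (by rw [Finset.mem_Ico]; omega)]
        push_cast
        ring
    rw [Finset.sum_congr rfl e2, ← Finset.sum_filter]
    have e3 : (range (2 * n)).filter (fun r => r ∈ Ico (n + 1 - (s + j)) (n + j - s)) =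
        Ico (n + 1 - (s + j)) (n + j - s) := by
      ext r
      rw [Finset.mem_filter, Finset.mem_Ico, Finset.mem_range]
      constructor
      · exact fun h => h.2
      · exact fun h => ⟨by omega, h⟩
    rw [e3, ← Finset.sum_div, ← Finset.mul_sum]
    by_cases h : s < n + j
    · rw [if_pos h]
      have := geom_up w 0 (n + 1 - (s + j)) (n + j - s) (by omega)
      simp only [zero_add] at this
      rw [this]
    · rw [if_neg h, Finset.Ico_eq_empty (by omega)]
      simp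
  rw [e1]
  have e4 : ∑ j ∈ Ico 1 (n + 1),
        (if s < n + j then (w ^ (n + 1 - (s + j)) - w ^ (n + j - s)) / (j : ℂ) else 0) =
      F (n - s) w + ∑ j ∈ Ico 1 (n + 1), (if n < s + j ∧ s < n + j then
        (w ^ (n + 1 - (s + j)) - w ^ (n + j - s)) / (j : ℂ) else 0) := by
    have e5 : F (n - s) w = ∑ j ∈ Ico 1 (n + 1), (if s + j ≤ n then
        (w ^ (n + 1 - (s + j)) - w ^ (n + j - s)) / (j : ℂ) else 0) := by
      unfold F
      rw [← Finset.sum_filter]
      have e6 : (Ico 1 (n + 1)).filter (fun j => s + j ≤ n) = Ico 1 (n - s + 1) := by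
        ext j
        rw [Finset.mem_filter, Finset.mem_Ico, Finset.mem_Ico]
        omega
      rw [e6]
      refine Finset.sum_congr rfl fun j hj => ?_
      rw [Finset.mem_Ico] at hj
      have : n - s + 1 - j = n + 1 - (s + j) := by omega
      have h2 : n - s + j = n + j - s := by omega
      rw [this, h2]
    rw [e5, ← Finset.sum_add_distrib]
    refine Finset.sum_congr rfl fun j hj => ?_
    rw [Finset.mem_Ico] at hj
    by_cases h1 : s + j ≤ n
    · rw [if_pos h1, if_neg (by omega : ¬ (n < s + j ∧ s < n + j)), if_pos (by omega), add_zero]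
    · rw [if_neg h1, zero_add]
      by_cases h2 : s < n + j
      · rw [if_pos h2, if_pos ⟨by omega, h2⟩]
      · rw [if_neg h2, if_neg (by omega)]
  rw [e4]
  refine (norm_add_le _ _).trans (add_le_add (norm_F_le _ hw) ?_)
  unfold G
  rw [Finset.mul_sum]
  refine norm_sum_le_of_le _ fun j hj => ?_
  rw [Finset.mem_Ico] at hj
  split_ifs with h
  · rw [norm_div, Complex.norm_natCast, mul_one_div]
    refine div_le_div_of_nonneg_right ?_ (Nat.cast_nonneg _)
    refine (norm_sub_le _ _).trans ?_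
    have h1 := norm_pow_le_one hw (n + 1 - (s + j))
    have h2 := norm_pow_le_one hw (n + j - s)
    linarith
  · simp

end Pool.Agent.U451.Ritt
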