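import Pool.Agent.U451.Ritt1

set_option autoImplicit false

/-!
# Ritt operators with large powers: the space and the operator

On `ℂ^N` we use the norm `|h 0| + C⁻¹ M h 0 + 4 C⁻² ∑_s M h s` where
`M h s = sup_{|w| ≤ 1} |(1 - w) ∑_r w ^ r h (s + r)|`. The backward shift `T` then satisfies
`‖(z - 1) (z - T)⁻¹‖ ≤ C` for `|z| > 1` as soon as `4 N ≤ C`.
-/

namespace Pool.Agent.U451.Ritt

open Finset Metric

/-- The vector space `ℂ^N` (the parameter `C` enters only in the norm). -/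
def Sp (N : ℕ) (_C : ℝ) : Type := Fin N → ℂ

variable {N : ℕ} {C : ℝ}

noncomputable instance : AddCommGroup (Sp N C) := inferInstanceAs (AddCommGroup (Fin N → ℂ))
noncomputable instance : Module ℂ (Sp N C) := inferInstanceAs (Module ℂ (Fin N → ℂ))
instance : Module.Finite ℂ (Sp N C) := inferInstanceAs (Module.Finite ℂ (Fin N → ℂ))

/-- the entry `i`, extended by zero -/
def ex (h : Sp N C) (i : ℕ) : ℂ := if hi : i < N then h ⟨i, hi⟩ else 0

/-- the vector with given entries -/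
def ofFun (N : ℕ) (C : ℝ) (f : ℕ → ℂ) : Sp N C := fun i => f i

lemma ex_ofFun (f : ℕ → ℂ) (hf : ∀ i, N ≤ i → f i = 0) (i : ℕ) : ex (ofFun N C f) i = f i := by
  unfold ex ofFun
  split_ifs with h
  · rfl
  · exact (hf i (by omega)).symm

lemma ex_of_le (h : Sp N C) (i : ℕ) (hi : N ≤ i) : ex h i = 0 := by
  unfold ex; rw [dif_neg (by omega)]

lemma ex_add (h k : Sp N C) (i : ℕ) : ex (h + k) i = ex h i + ex k i := by
  unfold ex
  split_ifs
  · rfl
  · simp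

lemma ex_smul (c : ℂ) (h : Sp N C) (i : ℕ) : ex (c • h) i = c * ex h i := by
  unfold ex
  split_ifs
  · rfl
  · simp

lemma ex_zero (i : ℕ) : ex (0 : Sp N C) i = 0 := by
  unfold ex
  split_ifs
  · rfl
  · rfl

lemma ext_ex {h k : Sp N C} (H : ∀ i, ex h i = ex k i) : h = k := by
  funext i
  have := H i
  unfold ex at this
  rw [dif_pos i.2, dif_pos i.2] at this
  exact this

/-- `P w h s = (1 - w) ∑_r w ^ r h (s + r)` -/
noncomputable def P (w : ℂ) (h : Sp N C) (s : ℕ) : ℂ :=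
  (1 - w) * ∑ r ∈ range N, w ^ r * ex h (s + r)

lemma P_add (w : ℂ) (h k : Sp N C) (s : ℕ) : P w (h + k) s = P w h s + P w k s := by
  unfold P
  rw [← mul_add, ← Finset.sum_add_distrib]
  congr 1
  refine Finset.sum_congr rfl fun r _ => ?_
  rw [ex_add]; ring

lemma P_smul (w c : ℂ) (h : Sp N C) (s : ℕ) : P w (c • h) s = c * P w h s := by
  unfold P
  simp_rw [ex_smul, Finset.mul_sum]
  refine Finset.sum_congr rfl fun r _ => ?_
  ring

lemma P_large (w : ℂ) (h : Sp N C) (s : ℕ) (hs : N ≤ s) : P w h s = 0 := by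
  unfold P
  rw [Finset.sum_eq_zero, mul_zero]
  intro r _
  rw [ex_of_le _ _ (by omega), mul_zero]

lemma norm_one_sub_le {w : ℂ} (hw : ‖w‖ ≤ 1) : ‖1 - w‖ ≤ 2 := by
  refine (norm_sub_le _ _).trans ?_
  rw [norm_one]; linarith

lemma norm_P_le (h : Sp N C) (s : ℕ) {w : ℂ} (hw : ‖w‖ ≤ 1) :
    ‖P w h s‖ ≤ 2 * ∑ r ∈ range N, ‖ex h (s + r)‖ := by
  unfold P
  rw [norm_mul]
  refine mul_le_mul (norm_one_sub_le hw) ?_ (norm_nonneg _) (by norm_num)
  refine norm_sum_le_of_le _ fun r _ => ?_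
  rw [norm_mul]
  exact mul_le_of_le_one_left (norm_nonneg _) (norm_pow_le_one hw r)

/-- `Mx h s = sup_{|w| ≤ 1} |P w h s|` -/
noncomputable def Mx (h : Sp N C) (s : ℕ) : ℝ := ⨆ w : closedBall (0 : ℂ) 1, ‖P (w : ℂ) h s‖

instance : Nonempty (closedBall (0 : ℂ) 1) := ⟨⟨0, by simp⟩⟩

lemma bdd (h : Sp N C) (s : ℕ) :
    BddAbove (Set.range fun w : closedBall (0 : ℂ) 1 => ‖P (w : ℂ) h s‖) := by
  refine ⟨2 * ∑ r ∈ range N, ‖ex h (s + r)‖, ?_⟩
  rintro _ ⟨w, rfl⟩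
  exact norm_P_le h s (mem_closedBall_zero_iff.1 w.2)

lemma le_Mx (h : Sp N C) (s : ℕ) {w : ℂ} (hw : ‖w‖ ≤ 1) : ‖P w h s‖ ≤ Mx h s :=
  le_ciSup (bdd h s) ⟨w, by simpa using hw⟩

lemma Mx_le (h : Sp N C) (s : ℕ) {B : ℝ} (H : ∀ w : ℂ, ‖w‖ ≤ 1 → ‖P w h s‖ ≤ B) : Mx h s ≤ B :=
  ciSup_le fun w => H w (mem_closedBall_zero_iff.1 w.2)

lemma Mx_nonneg (h : Sp N C) (s : ℕ) : 0 ≤ Mx h s :=
  (norm_nonneg _).trans (le_Mx h s (w := 0) (by simp))

lemma Mx_large (h : Sp N C) (s : ℕ) (hs : N ≤ s) : Mx h s = 0 := by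
  refine le_antisymm (Mx_le h s fun w _ => ?_) (Mx_nonneg h s)
  rw [P_large w h s hs, norm_zero]

lemma ex_le_Mx (h : Sp N C) (s : ℕ) (hs : s < N) : ‖ex h s‖ ≤ Mx h s := by
  have h1 := le_Mx h s (w := 0) (by simp)
  have h2 : P 0 h s = ex h s := by
    unfold P
    rw [sub_zero, one_mul, Finset.sum_eq_single 0]
    · simp
    · intro r _ hr
      simp [hr]
    · intro h0
      simp at h0
      omega
  rwa [h2] at h1

lemma Mx_add (h k : Sp N C) (s : ℕ) : Mx (h + k) s ≤ Mx h s + Mx k s :=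
  Mx_le _ _ fun w hw => by
    rw [P_add]
    exact (norm_add_le _ _).trans (add_le_add (le_Mx h s hw) (le_Mx k s hw))

lemma Mx_smul (c : ℂ) (h : Sp N C) (s : ℕ) : Mx (c • h) s = ‖c‖ * Mx h s := by
  unfold Mx
  rw [Real.mul_iSup_of_nonneg (norm_nonneg c)]
  congr 1
  funext w
  rw [P_smul, norm_mul]

/-- the sum of the values of the maximal function -/
noncomputable def Sx (h : Sp N C) : ℝ := ∑ s ∈ range N, Mx h s

lemma Sx_nonneg (h : Sp N C) : 0 ≤ Sx h := Finset.sum_nonneg fun s _ => Mx_nonneg h s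

/-- If `u = R_μ h` then `M u ≤ 2 ∑ M h`. -/
lemma Mx_comp (h u : Sp N C) {μ : ℂ} (hμ : ‖μ‖ ≤ 1) (hu : ∀ s, ex u s = P μ h s) (s : ℕ) :
    Mx u s ≤ 2 * Sx h := by
  refine Mx_le _ _ fun w hw => (norm_P_le u s hw).trans ?_
  refine mul_le_mul_of_nonneg_left ?_ (by norm_num)
  have h1 : ∑ r ∈ range N, ‖ex u (s + r)‖ ≤ ∑ r ∈ range N, Mx h (s + r) :=
    Finset.sum_le_sum fun r _ => by rw [hu]; exact le_Mx h _ hμ
  refine h1.trans ?_
  have h2 : ∑ r ∈ range N, Mx h (s + r) = ∑ j ∈ Ico s (s + N), Mx h j := by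
    rw [Finset.sum_Ico_eq_sum_range]
    simp
  rw [h2]
  have h3 : ∑ j ∈ Ico s (s + N), Mx h j ≤ ∑ j ∈ range (s + N), Mx h j :=
    Finset.sum_le_sum_of_subset_of_nonneg (fun j hj => by
      rw [Finset.mem_Ico] at hj; rw [Finset.mem_range]; omega) (fun j _ _ => Mx_nonneg h j)
  refine h3.trans (le_of_eq ?_)
  unfold Sx
  symm
  refine Finset.sum_subset (fun j hj => ?_) (fun j _ hj => ?_)
  · rw [Finset.mem_range] at hj ⊢; omega
  · rw [Finset.mem_range] at hj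
    exact Mx_large h j (by omega)

noncomputable instance : Norm (Sp N C) :=
  ⟨fun h => ‖ex h 0‖ + C⁻¹ * Mx h 0 + 4 * C⁻¹ ^ 2 * Sx h⟩

lemma norm_def (h : Sp N C) : ‖h‖ = ‖ex h 0‖ + C⁻¹ * Mx h 0 + 4 * C⁻¹ ^ 2 * Sx h := rfl

lemma core [hC : Fact (0 < C)] : NormedSpace.Core ℂ (Sp N C) where
  norm_nonneg h := by
    have := hC.out
    have h1 := Mx_nonneg h 0
    have h2 := Sx_nonneg h
    rw [norm_def]; positivity
  norm_smul c h := by
    rw [norm_def, norm_def, ex_smul, Mx_smul, norm_mul]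
    have : Sx (c • h) = ‖c‖ * Sx h := by
      unfold Sx
      rw [Finset.mul_sum]
      exact Finset.sum_congr rfl fun s _ => Mx_smul c h s
    rw [this]; ring
  norm_triangle h k := by
    have hC0 := hC.out
    rw [norm_def, norm_def, norm_def, ex_add]
    have h1 := norm_add_le (ex h 0) (ex k 0)
    have h2 := mul_le_mul_of_nonneg_left (Mx_add h k 0) (inv_pos.2 hC0).le
    have h3 : Sx (h + k) ≤ Sx h + Sx k := by
      unfold Sx
      rw [← Finset.sum_add_distrib]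
      exact Finset.sum_le_sum fun s _ => Mx_add h k s
    have h4 := mul_le_mul_of_nonneg_left h3 (by positivity : (0 : ℝ) ≤ 4 * C⁻¹ ^ 2)
    linarith
  norm_eq_zero_iff h := by
    have hC0 := hC.out
    constructor
    · intro h0
      rw [norm_def] at h0
      have h1 := Mx_nonneg h 0
      have h2 := Sx_nonneg h
      have h3 : 4 * C⁻¹ ^ 2 * Sx h = 0 := by
        have a1 := norm_nonneg (ex h 0)
        have a2 : 0 ≤ C⁻¹ * Mx h 0 := by positivity
        have a3 : 0 ≤ 4 * C⁻¹ ^ 2 * Sx h := by positivity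
        linarith
      have h4 : Sx h = 0 := by
        rcases mul_eq_zero.1 h3 with h5 | h5
        · exfalso
          have : (0 : ℝ) < 4 * C⁻¹ ^ 2 := by positivity
          linarith
        · exact h5
      have h5 : ∀ s ∈ range N, Mx h s = 0 :=
        (Finset.sum_eq_zero_iff_of_nonneg fun s _ => Mx_nonneg h s).1 h4
      apply ext_ex
      intro i
      rw [ex_zero]
      by_cases hi : i < N
      · have := ex_le_Mx h i hi
        rw [h5 i (Finset.mem_range.2 hi)] at this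
        exact norm_le_zero_iff.1 this
      · exact ex_of_le h i (by omega)
    · rintro rfl
      have hP : ∀ (w : ℂ) (s : ℕ), P w (0 : Sp N C) s = 0 := by
        intro w s
        unfold P
        simp [ex_zero]
      have hM : ∀ s, Mx (0 : Sp N C) s = 0 := fun s =>
        le_antisymm (Mx_le _ _ fun w _ => by rw [hP, norm_zero]) (Mx_nonneg _ _)
      rw [norm_def, ex_zero, hM]
      unfold Sx
      simp [hM]

section
variable [hC : Fact (0 < C)]

noncomputable instance instNACG : NormedAddCommGroup (Sp N C) :=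
  NormedAddCommGroup.ofCore (𝕜 := ℂ) core

noncomputable instance instNS : NormedSpace ℂ (Sp N C) := NormedSpace.ofCore core

instance instFD : FiniteDimensional ℂ (Sp N C) := inferInstanceAs (Module.Finite ℂ (Sp N C))

instance instCS : CompleteSpace (Sp N C) := FiniteDimensional.complete ℂ _

omit hC in
/-- The backward shift. -/
def shl (N : ℕ) (C : ℝ) : Sp N C →ₗ[ℂ] Sp N C where
  toFun h := fun i => ex h (i + 1)
  map_add' h k := by
    funext i
    exact ex_add h k (i + 1)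
  map_smul' c h := by
    funext i
    exact ex_smul c h (i + 1)

/-- The backward shift as a bounded operator. -/
noncomputable def sh (N : ℕ) (C : ℝ) [Fact (0 < C)] : Sp N C →L[ℂ] Sp N C :=
  LinearMap.toContinuousLinearMap (shl N C)

lemma ex_sh (h : Sp N C) (i : ℕ) : ex (sh N C h) i = ex h (i + 1) := by
  by_cases hi : i < N
  · have h1 : ex (sh N C h) i = (sh N C h) ⟨i, hi⟩ := by
      unfold ex; rw [dif_pos hi]
    rw [h1]
    rfl
  · rw [ex_of_le _ _ (by omega), ex_of_le _ _ (by omega)]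

lemma ex_sh_pow (h : Sp N C) (r i : ℕ) : ex ((sh N C ^ r) h) i = ex h (i + r) := by
  induction r generalizing i with
  | zero => simp
  | succ r ih =>
    have h1 : (sh N C ^ (r + 1)) h = sh N C ((sh N C ^ r) h) := by
      rw [pow_succ']; rfl
    rw [h1, ex_sh, ih]
    congr 1
    ring

lemma sh_pow_N : sh N C ^ N = 0 := by
  ext1 h
  apply ext_ex
  intro i
  rw [ex_sh_pow, ex_of_le _ _ (by omega)]
  simp [ex_zero]

/-- `S w = ∑_{r < N} (w T) ^ r` -/
noncomputable def S (w : ℂ) : Sp N C →L[ℂ] Sp N C := ∑ r ∈ range N, (w • sh N C) ^ r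

omit hC in
lemma ex_sum {ι : Type*} (s : Finset ι) (f : ι → Sp N C) (i : ℕ) :
    ex (∑ a ∈ s, f a) i = ∑ a ∈ s, ex (f a) i := by
  classical
  induction s using Finset.induction_on with
  | empty => simp [ex_zero]
  | insert a s ha ih => rw [Finset.sum_insert ha, Finset.sum_insert ha, ex_add, ih]

lemma ex_S (w : ℂ) (h : Sp N C) (s : ℕ) : ex (((1 - w) • S w) h) s = P w h s := by
  unfold S P
  rw [_root_.smul_apply, ex_smul, _root_.sum_apply, ex_sum]
  congr 1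
  refine Finset.sum_congr rfl fun r _ => ?_
  rw [smul_pow, _root_.smul_apply, ex_smul, ex_sh_pow]

lemma res_mul {z : ℂ} (hz : z ≠ 0) :
    (algebraMap ℂ (Sp N C →L[ℂ] Sp N C) z - sh N C) * (z⁻¹ • S z⁻¹) = 1 ∧
    (z⁻¹ • S z⁻¹) * (algebraMap ℂ (Sp N C →L[ℂ] Sp N C) z - sh N C) = 1 := by
  have h : z * z⁻¹ = 1 := mul_inv_cancel₀ hz
  have h1 : algebraMap ℂ (Sp N C →L[ℂ] Sp N C) z - sh N C = z • (1 - z⁻¹ • sh N C) := by
    rw [Algebra.algebraMap_eq_smul_one, smul_sub, smul_smul, h, one_smul]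
  have h2 : (z⁻¹ • sh N C) ^ N = 0 := by
    rw [smul_pow, sh_pow_N, smul_zero]
  constructor
  · rw [h1, smul_mul_smul_comm, h, one_smul, S, mul_neg_geom_sum, h2, sub_zero]
  · rw [h1, smul_mul_smul_comm, mul_comm z⁻¹ z, h, one_smul, S, geom_sum_mul_neg, h2, sub_zero]

lemma sh_spec (z : ℂ) (hz : z ∈ spectrum ℂ (sh N C)) : z = 0 := by
  by_contra h0
  have h := res_mul (N := N) (C := C) h0
  exact hz ⟨⟨_, _, h.1, h.2⟩, rfl⟩

lemma sh_res {z : ℂ} (hz : z ≠ 0) :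
    (z - 1) • resolvent (sh N C) z = (1 - z⁻¹) • S z⁻¹ := by
  have h := res_mul (N := N) (C := C) hz
  have h1 : resolvent (sh N C) z = z⁻¹ • S z⁻¹ := by
    unfold resolvent
    let U : (Sp N C →L[ℂ] Sp N C)ˣ := ⟨_, _, h.1, h.2⟩
    exact Ring.inverse_unit U
  rw [h1, smul_smul]
  congr 1
  field_simp

/-- The Ritt condition. -/
theorem ritt (hN : 4 * (N : ℝ) ≤ C) (z : ℂ) (hz : 1 < ‖z‖) :
    ‖(z - 1) • resolvent (sh N C) z‖ ≤ C := by
  have hC0 := hC.out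
  have hz0 : z ≠ 0 := by
    rintro rfl; simp at hz; linarith
  rw [sh_res hz0]
  refine ContinuousLinearMap.opNorm_le_bound _ hC0.le fun h => ?_
  set μ := z⁻¹ with hμ
  have hμ1 : ‖μ‖ ≤ 1 := by
    rw [hμ, norm_inv]; exact inv_le_one_of_one_le₀ hz.le
  set u := ((1 - μ) • S μ) h with hu
  have hex : ∀ s, ex u s = P μ h s := fun s => ex_S μ h s
  have e1 : ‖u‖ = ‖ex u 0‖ + C⁻¹ * Mx u 0 + 4 * C⁻¹ ^ 2 * Sx u := rfl
  have e2 : ‖h‖ = ‖ex h 0‖ + C⁻¹ * Mx h 0 + 4 * C⁻¹ ^ 2 * Sx h := rfl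
  rw [e1, e2]
  have b1 : ‖ex u 0‖ ≤ Mx h 0 := by rw [hex]; exact le_Mx h 0 hμ1
  have b2 : Mx u 0 ≤ 2 * Sx h := Mx_comp h u hμ1 hex 0
  have b3 : Sx u ≤ N * (2 * Sx h) := by
    unfold Sx
    refine (Finset.sum_le_sum fun s _ => Mx_comp h u hμ1 hex s).trans ?_
    rw [Finset.sum_const, Finset.card_range, nsmul_eq_mul]
    rfl
  have hS := Sx_nonneg h
  have hCi : 0 < C⁻¹ := inv_pos.2 hC0
  have b4 : C⁻¹ * Mx u 0 ≤ C⁻¹ * (2 * Sx h) := mul_le_mul_of_nonneg_left b2 hCi.le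
  have b5 : 4 * C⁻¹ ^ 2 * Sx u ≤ 4 * C⁻¹ ^ 2 * (N * (2 * Sx h)) :=
    mul_le_mul_of_nonneg_left b3 (by positivity)
  have b6 : 4 * C⁻¹ ^ 2 * (N * (2 * Sx h)) ≤ 2 * C⁻¹ * Sx h := by
    have : 4 * C⁻¹ ^ 2 * (N * (2 * Sx h)) = 2 * C⁻¹ * Sx h * (4 * N * C⁻¹) := by ring
    rw [this]
    refine mul_le_of_le_one_right (by positivity) ?_
    rw [← div_eq_mul_inv, div_le_one hC0]
    exact hN
  have b7 : C * (‖ex h 0‖ + C⁻¹ * Mx h 0 + 4 * C⁻¹ ^ 2 * Sx h) =
      C * ‖ex h 0‖ + Mx h 0 + 4 * C⁻¹ * Sx h := by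
    field_simp
  rw [b7]
  have b8 : 0 ≤ C * ‖ex h 0‖ := by positivity
  linarith

end

/-- The vector `C • G n`. -/
noncomputable def peak (n : ℕ) (C : ℝ) : Sp (2 * n) C := ofFun (2 * n) C fun i => (C * G n i : ℝ)

lemma ex_peak (n : ℕ) (i : ℕ) : ex (peak n C) i = (C * G n i : ℝ) :=
  ex_ofFun _ (fun i hi => by rw [G_large n i hi]; simp) i

theorem norm_peak (n : ℕ) (hC : 0 < C) (hn : 8 * (n : ℝ) ≤ C) : ‖peak n C‖ ≤ 14 := by
  rw [norm_def]
  have hM : ∀ s, Mx (peak n C) s ≤ C * (6 + 2 * G n s) := by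
    intro s
    refine Mx_le _ _ fun w hw => ?_
    have h1 := profile n s hw
    have h2 : P w (peak n C) s =
        (C : ℂ) * ((1 - w) * ∑ r ∈ range (2 * n), w ^ r * (G n (s + r) : ℂ)) := by
      unfold P
      simp_rw [ex_peak]
      push_cast
      rw [mul_left_comm, Finset.mul_sum (s := range (2 * n)) (a := (C : ℂ))]
      congr 1
      refine Finset.sum_congr rfl fun r _ => ?_
      ring
    rw [h2, norm_mul, Complex.norm_real, Real.norm_of_nonneg hC.le]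
    exact mul_le_mul_of_nonneg_left h1 hC.le
  have h0 : ex (peak n C) 0 = 0 := by
    rw [ex_peak, G_zero]; simp
  have h1 := hM 0
  rw [G_zero] at h1
  have h2 : Sx (peak n C) ≤ C * (16 * n) := by
    unfold Sx
    refine (Finset.sum_le_sum fun s _ => hM s).trans ?_
    rw [← Finset.mul_sum, Finset.sum_add_distrib, Finset.sum_const, Finset.card_range,
      ← Finset.mul_sum, nsmul_eq_mul]
    have := sum_G n
    push_cast
    refine mul_le_mul_of_nonneg_left ?_ hC.le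
    linarith
  rw [h0, norm_zero]
  have h3 : C⁻¹ * Mx (peak n C) 0 ≤ 6 := by
    rw [inv_mul_le_iff₀ hC]; linarith
  have h4 : 4 * C⁻¹ ^ 2 * Sx (peak n C) ≤ 4 * C⁻¹ ^ 2 * (C * (16 * n)) :=
    mul_le_mul_of_nonneg_left h2 (by positivity)
  have h5 : 4 * C⁻¹ ^ 2 * (C * (16 * n)) = 8 * (8 * n * C⁻¹) := by
    field_simp
    ring
  have h6 : 8 * (n : ℝ) * C⁻¹ ≤ 1 := by
    rw [← div_eq_mul_inv, div_le_one hC]; exact hn
  linarith

/-- The lower bound for the power. -/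
theorem norm_pow_ge (n : ℕ) [hC : Fact (0 < C)] (hn : 8 * (n : ℝ) ≤ C) :
    C * Real.log (n + 1) / 14 ≤ ‖sh (2 * n) C ^ n‖ := by
  have hC0 := hC.out
  have h1 := norm_peak n hC0 hn
  have h2 : C * Real.log (n + 1) ≤ ‖(sh (2 * n) C ^ n) (peak n C)‖ := by
    have e : ‖(sh (2 * n) C ^ n) (peak n C)‖ = ‖ex ((sh (2 * n) C ^ n) (peak n C)) 0‖ +
      C⁻¹ * Mx ((sh (2 * n) C ^ n) (peak n C)) 0 +
      4 * C⁻¹ ^ 2 * Sx ((sh (2 * n) C ^ n) (peak n C)) := rfl
    rw [e, ex_sh_pow, zero_add, ex_peak, Complex.norm_real]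
    have a1 := Mx_nonneg ((sh (2 * n) C ^ n) (peak n C)) 0
    have a2 := Sx_nonneg ((sh (2 * n) C ^ n) (peak n C))
    have a3 : C * Real.log (n + 1) ≤ ‖C * G n n‖ :=
      (mul_le_mul_of_nonneg_left (G_peak n) hC0.le).trans (Real.le_norm_self _)
    have a4 : 0 ≤ C⁻¹ * Mx ((sh (2 * n) C ^ n) (peak n C)) 0 := by positivity
    have a5 : 0 ≤ 4 * C⁻¹ ^ 2 * Sx ((sh (2 * n) C ^ n) (peak n C)) := by positivity
    linarith
  have h3 := (sh (2 * n) C ^ n).le_opNorm (peak n C)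
  have h4 : ‖sh (2 * n) C ^ n‖ * ‖peak n C‖ ≤ ‖sh (2 * n) C ^ n‖ * 14 :=
    mul_le_mul_of_nonneg_left h1 (norm_nonneg _)
  rw [div_le_iff₀ (by norm_num)]
  linarith

end Pool.Agent.U451.Ritt
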